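import Mathlib

/-!
# Free boundary stationary varifolds in the unit ball: definitions and the trace calculus
-/

open MeasureTheory InnerProductSpace
open scoped RealInnerProductSpace ContDiff

noncomputable section

namespace FBV

/-- Euclidean space `ℝⁿ`. -/
abbrev E (n : ℕ) := EuclideanSpace ℝ (Fin n)

/-- `P` is the orthogonal projection onto a `k`-dimensional linear subspace. -/
def IsPlane {n : ℕ} (k : ℕ) (P : E n →L[ℝ] E n) : Prop :=
  ∃ S : Submodule ℝ (E n), Module.finrank ℝ S = k ∧ P = S.starProjection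

/-- The trace of `P ∘ A`. When `P` is the orthogonal projection onto the plane `S` and
`A = DX(x)`, this is the divergence `div_S X (x)` of the vector field `X` along `S`. -/
def planeTrace {n : ℕ} (P A : E n →L[ℝ] E n) : ℝ :=
  LinearMap.trace ℝ (E n) ((P ∘L A : E n →L[ℝ] E n) : E n →ₗ[ℝ] E n)

/-- `V` is a `k`-varifold in the closed unit ball of `ℝⁿ` (a finite measure on pairs
`(x, P)`, `x` in the ball, `P` the orthogonal projection onto a `k`-plane) which is stationary with
free boundary, with boundary measure `σ` (a finite measure on the unit sphere): the first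
variation formula `∫ div_S X dV = ∫ ⟨X, x⟩ dσ` holds for all smooth vector fields `X`. -/
structure IsFBStationary (n k : ℕ) (V : Measure (E n × (E n →L[ℝ] E n)))
    (σ : Measure (E n)) : Prop where
  finV : IsFiniteMeasure V
  finσ : IsFiniteMeasure σ
  ball : ∀ᵐ z ∂V, ‖z.1‖ ≤ 1
  plane : ∀ᵐ z ∂V, IsPlane k z.2
  sphere : ∀ᵐ x ∂σ, ‖x‖ = 1
  first_variation : ∀ X : E n → E n, ContDiff ℝ ∞ X →
    ∫ z, planeTrace z.2 (fderiv ℝ X z.1) ∂V = ∫ x, ⟪X x, x⟫ ∂σ

/-! ### Linear algebra of projections -/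

section proj

variable {n k : ℕ} {P : E n →L[ℝ] E n}

theorem IsPlane.symm (hP : IsPlane k P) (v w : E n) : ⟪P v, w⟫ = ⟪v, P w⟫ := by
  obtain ⟨S, -, rfl⟩ := hP
  exact Submodule.inner_starProjection_left_eq_right S v w

theorem IsPlane.idem (hP : IsPlane k P) (v : E n) : P (P v) = P v := by
  obtain ⟨S, -, rfl⟩ := hP
  exact congrArg (fun f => f v) S.isIdempotentElem_starProjection

theorem IsPlane.norm_le_one (hP : IsPlane k P) : ‖P‖ ≤ 1 := by
  obtain ⟨S, -, rfl⟩ := hP
  exact Submodule.starProjection_norm_le S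

theorem IsPlane.norm_apply_le (hP : IsPlane k P) (v : E n) : ‖P v‖ ≤ ‖v‖ := by
  obtain ⟨S, -, rfl⟩ := hP
  exact S.norm_starProjection_apply_le v

theorem IsPlane.inner_self (hP : IsPlane k P) (v : E n) : ⟪v, P v⟫ = ‖P v‖ ^ 2 := by
  rw [← real_inner_self_eq_norm_sq, hP.symm, hP.idem]

theorem IsPlane.inner_nonneg (hP : IsPlane k P) (v : E n) : 0 ≤ ⟪v, P v⟫ := by
  rw [hP.inner_self]; positivity

theorem IsPlane.inner_le (hP : IsPlane k P) (v : E n) : ⟪v, P v⟫ ≤ ‖v‖ ^ 2 := by
  rw [hP.inner_self]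
  exact pow_le_pow_left₀ (norm_nonneg _) (hP.norm_apply_le v) 2

theorem IsPlane.norm_sub_sq (hP : IsPlane k P) (v : E n) :
    ‖v - P v‖ ^ 2 = ‖v‖ ^ 2 - ⟪v, P v⟫ := by
  rw [norm_sub_sq_real, hP.inner_self]; ring

theorem IsPlane.inner_sub (hP : IsPlane k P) (v w : E n) :
    ⟪v, w - P w⟫ = ⟪v, w⟫ - ⟪v, P w⟫ := by
  rw [inner_sub_right]

theorem IsPlane.trace_eq (hP : IsPlane k P) :
    LinearMap.trace ℝ (E n) (P : E n →ₗ[ℝ] E n) = k := by
  obtain ⟨S, hS, rfl⟩ := hP
  have h : LinearMap.IsProj S (S.starProjection : E n →ₗ[ℝ] E n) := by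
    constructor
    · intro x; exact S.starProjection_apply_mem x
    · intro x hx; exact Submodule.starProjection_eq_self_iff.2 hx
  rw [h.trace, hS]

end proj

/-! ### The trace calculus -/

section trace

variable {n k : ℕ} {P : E n →L[ℝ] E n}

theorem planeTrace_add (P A B : E n →L[ℝ] E n) :
    planeTrace P (A + B) = planeTrace P A + planeTrace P B := by
  simp [planeTrace, ContinuousLinearMap.comp_add]

theorem planeTrace_sub (P A B : E n →L[ℝ] E n) :
    planeTrace P (A - B) = planeTrace P A - planeTrace P B := by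
  simp [planeTrace, ContinuousLinearMap.comp_sub]

theorem planeTrace_smul (P A : E n →L[ℝ] E n) (c : ℝ) :
    planeTrace P (c • A) = c * planeTrace P A := by
  simp [planeTrace, ContinuousLinearMap.comp_smul]

theorem planeTrace_id (hP : IsPlane k P) :
    planeTrace P (ContinuousLinearMap.id ℝ (E n)) = k := by
  rw [planeTrace, ContinuousLinearMap.comp_id, hP.trace_eq]

theorem planeTrace_smulRight (P : E n →L[ℝ] E n) (φ : E n →L[ℝ] ℝ) (b : E n) :
    planeTrace P (φ.smulRight b) = φ (P b) := by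
  have h : ((P ∘L (φ.smulRight b) : E n →L[ℝ] E n) : E n →ₗ[ℝ] E n)
      = LinearMap.smulRight (φ : E n →ₗ[ℝ] ℝ) (P b) := by
    ext x
    simp
  rw [planeTrace, h, LinearMap.trace_smulRight]
  rfl

/-- the divergence of `y ↦ f(y) (t y - a)` -/
theorem hasFDerivAt_field {f : E n → ℝ} {f' : E n →L[ℝ] ℝ} {x a : E n} {t : ℝ}
    (hf : HasFDerivAt f f' x) :
    HasFDerivAt (fun y => f y • (t • y - a))
      (f x • (t • ContinuousLinearMap.id ℝ (E n)) + f'.smulRight (t • x - a)) x := by
  have h2 : HasFDerivAt (fun y : E n => t • y - a) (t • ContinuousLinearMap.id ℝ (E n)) x := by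
    exact ((hasFDerivAt_id x).const_smul t).sub_const a
  exact hf.smul h2

theorem planeTrace_field (hP : IsPlane k P) {f' : E n →L[ℝ] ℝ} {x a : E n} {t c : ℝ} :
    planeTrace P (c • (t • ContinuousLinearMap.id ℝ (E n)) + f'.smulRight (t • x - a))
      = k * t * c + f' (P (t • x - a)) := by
  rw [planeTrace_add, planeTrace_smul, planeTrace_smul, planeTrace_id hP, planeTrace_smulRight]
  ring

theorem continuous_planeTrace :
    Continuous (fun z : (E n →L[ℝ] E n) × (E n →L[ℝ] E n) => planeTrace z.1 z.2) := by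
  unfold planeTrace
  have h1 : Continuous (fun z : (E n →L[ℝ] E n) × (E n →L[ℝ] E n) => z.1 ∘L z.2) := by
    fun_prop
  let T : (E n →L[ℝ] E n) →ₗ[ℝ] ℝ :=
    { toFun := fun A => LinearMap.trace ℝ (E n) (A : E n →ₗ[ℝ] E n)
      map_add' := fun A B => by simp
      map_smul' := fun c A => by simp }
  have h2 : Continuous T := T.continuous_of_finiteDimensional
  exact h2.comp h1

end trace

end FBV
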