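import Pool.Agent.Lib_helper78.FB.Integral

/-!
# The boundary integral `∫ |x - p|^{2-k} dσ`
-/

open MeasureTheory InnerProductSpace Filter Topology
open scoped RealInnerProductSpace ContDiff

noncomputable section

namespace FBV

variable {n k : ℕ} {V : Measure (E n × (E n →L[ℝ] E n))} {σ : Measure (E n)}

/-- the field `(t y - p) / |t y - p|^k` -/
def rfld (p : E n) (k : ℕ) (t : ℝ) (y : E n) : E n := (‖t • y - p‖⁻¹) ^ k • (t • y - p)

theorem hasFDerivAt_pow_inv_norm' {p x : E n} {t : ℝ} (hx : t • x ≠ p) (i : ℕ) :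
    HasFDerivAt (fun y : E n => (‖t • y - p‖⁻¹) ^ i)
      ((-(i : ℝ) * (‖t • x - p‖⁻¹) ^ (i + 2) * t) • innerSL ℝ (t • x - p)) x := by
  have h1 : HasFDerivAt (fun y : E n => t • y) (t • ContinuousLinearMap.id ℝ (E n)) x :=
    (hasFDerivAt_id x).const_smul t
  have h2 := (hasFDerivAt_pow_inv_norm hx i).comp x h1
  refine h2.congr_fderiv ?_
  ext v
  simp
  ring

theorem rfld_ne {p y : E n} {t : ℝ} (ht0 : 0 ≤ t) (ht1 : t ≤ 1) (hy : ‖y‖ < ‖p‖) :
    t • y ≠ p := by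
  intro h
  have h1 : ‖t • y‖ = ‖p‖ := by rw [h]
  rw [norm_smul, Real.norm_eq_abs, abs_of_nonneg ht0] at h1
  have : t * ‖y‖ ≤ 1 * ‖y‖ := mul_le_mul_of_nonneg_right ht1 (norm_nonneg _)
  linarith

theorem planeTrace_rfld_nonneg {p x : E n} {t : ℝ} (ht0 : 0 ≤ t) (hx : t • x ≠ p)
    {P : E n →L[ℝ] E n} (hP : IsPlane k P) :
    0 ≤ planeTrace P (fderiv ℝ (rfld p k t) x) := by
  have h1 := hasFDerivAt_field (a := p) (t := t) (hasFDerivAt_pow_inv_norm' hx k)
  have h2 : HasFDerivAt (rfld p k t) _ x := h1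
  rw [h2.fderiv, planeTrace_field hP]
  have hpos : 0 < ‖t • x - p‖ := norm_pos_iff.2 (sub_ne_zero.2 hx)
  simp only [smul_apply, innerSL_apply_apply, smul_eq_mul]
  have h3 := hP.inner_le (t • x - p)
  have h4 : k * t * ‖t • x - p‖⁻¹ ^ k +
      -(k : ℝ) * ‖t • x - p‖⁻¹ ^ (k + 2) * t * ⟪t • x - p, P (t • x - p)⟫
      = k * t * ‖t • x - p‖⁻¹ ^ (k + 2) * (‖t • x - p‖ ^ 2 - ⟪t • x - p, P (t • x - p)⟫) := by
    rw [pow_add]
    field_simp
    ring
  rw [h4]
  apply mul_nonneg (by positivity)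
  linarith

theorem firstVar_rfld (h : IsFBStationary n k V σ) {p : E n} (hp : 1 < ‖p‖) {t : ℝ}
    (ht0 : 0 ≤ t) (ht1 : t ≤ 1) : 0 ≤ ∫ x, ⟪rfld p k t x, x⟫ ∂σ := by
  have h1 := (firstVar h hp (X := rfld p k t) (by
    intro y hy
    have hne := rfld_ne ht0 ht1 hy
    have h2 : ContDiffAt ℝ ∞ (fun y : E n => t • y - p) y :=
      ((contDiff_id.const_smul t).sub contDiff_const).contDiffAt
    have h3 : ContDiffAt ℝ ∞ (fun y : E n => ‖t • y - p‖) y :=
      h2.norm ℝ (sub_ne_zero.2 hne)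
    exact ((h3.inv (norm_ne_zero_iff.2 (sub_ne_zero.2 hne))).pow k).fun_smul h2)).2
  rw [← h1]
  apply integral_nonneg_of_ae
  filter_upwards [h.ball, h.plane] with z hz1 hz2
  exact planeTrace_rfld_nonneg ht0 (rfld_ne ht0 ht1 (by linarith)) hz2

/-- Brendle's inequality for the boundary integral -/
theorem boundary_pow {j : ℕ} (h : IsFBStationary n (j + 2) V σ) {p : E n} (hp : 1 < ‖p‖) :
    ∫ x, ‖x - p‖⁻¹ ^ j ∂σ ≤ ‖p‖⁻¹ ^ j * σ.real Set.univ := by
  have hσ := h.finσ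
  set r : ℝ := (1 + ‖p‖) / 2 with hr
  set d : ℝ := (‖p‖ - 1) / 2 with hd
  have hd0 : 0 < d := by rw [hd]; linarith
  have hdist : ∀ (t : ℝ) (x : E n), |t| < r → ‖x‖ = 1 → d ≤ ‖t • x - p‖ := by
    intro t x ht hx
    have h2 : ‖p‖ - ‖t • x‖ ≤ ‖p - t • x‖ := norm_sub_norm_le _ _
    rw [norm_sub_rev, norm_smul, hx, mul_one, Real.norm_eq_abs] at h2
    rw [hd]
    rw [hr] at ht
    linarith
  set g : ℝ → ℝ := fun t => ∫ x, ‖t • x - p‖⁻¹ ^ j ∂σ with hg
  have hmeas : ∀ (i : ℕ) (t : ℝ), Measurable (fun x : E n => ‖t • x - p‖⁻¹ ^ i) := by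
    intro i t
    exact (((measurable_id.const_smul t).sub_const p).norm.inv).pow_const i
  -- the derivative
  have hder : ∀ t : ℝ, |t| < r →
      HasDerivAt g (∫ x, -(j : ℝ) * ‖t • x - p‖⁻¹ ^ (j + 2) * ⟪t • x - p, x⟫ ∂σ) t := by
    intro t ht
    have hU : {s : ℝ | |s| < r} ∈ 𝓝 t := (isOpen_lt continuous_abs continuous_const).mem_nhds ht
    have hB := hasDerivAt_integral_of_dominated_loc_of_deriv_le (μ := σ) (𝕜 := ℝ)
      (F := fun (t : ℝ) (x : E n) => ‖t • x - p‖⁻¹ ^ j)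
      (F' := fun (t : ℝ) (x : E n) => -(j : ℝ) * ‖t • x - p‖⁻¹ ^ (j + 2) * ⟪t • x - p, x⟫)
      (x₀ := t) (bound := fun _ => (j : ℝ) * (d⁻¹) ^ (j + 2) * (r + ‖p‖)) hU
      (Eventually.of_forall fun s => (hmeas j s).aestronglyMeasurable)
      (by
        refine Integrable.of_bound (hmeas j t).aestronglyMeasurable ((d⁻¹) ^ j) ?_
        filter_upwards [h.sphere] with x hx
        rw [norm_pow, norm_inv, norm_norm]
        have := hdist t x ht hx
        gcongr)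
      (by
        apply Measurable.aestronglyMeasurable
        have m1 : Measurable (fun x : E n => ⟪t • x - p, x⟫) := by fun_prop
        exact ((hmeas (j + 2) t).const_mul _).mul m1)
      (by
        filter_upwards [h.sphere] with x hx
        intro s hs
        have h1 := hdist s x hs hx
        have h2 : ‖⟪s • x - p, x⟫‖ ≤ r + ‖p‖ := by
          refine (norm_inner_le_norm _ _).trans ?_
          rw [hx, mul_one]
          refine (norm_sub_le _ _).trans ?_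
          rw [norm_smul, hx, mul_one, Real.norm_eq_abs]
          have : |s| < r := hs
          linarith
        rw [norm_mul, norm_mul, norm_neg, norm_pow, norm_inv, norm_norm]
        have h3 : ‖(j : ℝ)‖ = j := by simp
        rw [h3]
        gcongr)
      (integrable_const _)
      (by
        filter_upwards [h.sphere] with x hx
        intro s hs
        have h1 := hdist s x hs hx
        have hne : s • x ≠ p := by
          intro h0
          rw [h0, sub_self, norm_zero] at h1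
          linarith
        have h2 : HasDerivAt (fun s : ℝ => s • x) x s := by
          simpa using (hasDerivAt_id s).smul_const x
        have h3 := (hasFDerivAt_pow_inv_norm hne j).comp_hasDerivAt s h2
        refine h3.congr_deriv ?_
        simp only [smul_apply, innerSL_apply_apply, smul_eq_mul])
    exact hB.2
  have hle : g 1 ≤ g 0 := by
    have hanti : AntitoneOn g (Set.Icc 0 1) := by
      apply antitoneOn_of_deriv_nonpos (convex_Icc 0 1)
      · intro t ht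
        have ht' : |t| < r := by
          rw [abs_of_nonneg ht.1, hr]
          have := ht.2
          linarith
        exact (hder t ht').continuousAt.continuousWithinAt
      · intro t ht
        rw [interior_Icc] at ht
        exact (hder t (by
            rw [abs_of_pos ht.1, hr]
            have := ht.2
            linarith)).differentiableAt.differentiableWithinAt
      · intro t ht
        rw [interior_Icc] at ht
        rw [(hder t (by
            rw [abs_of_pos ht.1, hr]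
            have := ht.2
            linarith)).deriv]
        have h1 := firstVar_rfld h hp ht.1.le ht.2.le
        have h2 : ∫ x, -(j : ℝ) * ‖t • x - p‖⁻¹ ^ (j + 2) * ⟪t • x - p, x⟫ ∂σ
            = -(j : ℝ) * ∫ x, ⟪rfld p (j + 2) t x, x⟫ ∂σ := by
          rw [← integral_const_mul]
          congr 1
          funext x
          rw [rfld, real_inner_smul_left]
          ring
        rw [h2]
        have : (0 : ℝ) ≤ j := by positivity
        nlinarith
    exact hanti (by simp) (by simp) zero_le_one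
  have e1 : g 1 = ∫ x, ‖x - p‖⁻¹ ^ j ∂σ := by
    simp only [hg, one_smul]
  have e0 : g 0 = ‖p‖⁻¹ ^ j * σ.real Set.univ := by
    simp only [hg, zero_smul, zero_sub, norm_neg, integral_const, smul_eq_mul]
    ring
  rw [← e1, ← e0]
  exact hle

/-- the uniform bound -/
theorem int_uniform (hk : 2 ≤ k) (h : IsFBStationary n k V σ) {p : E n} (hp : 1 < ‖p‖) :
    ∫ z, ((‖p‖ ^ 2 - 1) / ‖z.1 - p‖ ^ 2) ^ k ∂V
      ≤ 2 * (1 + ‖p‖⁻¹) ^ (k - 2) * V.real Set.univ := by
  have hF := h.finV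
  have hB := int_B hk h hp
  obtain ⟨j, rfl⟩ := Nat.exists_eq_add_of_le' hk
  have hb := boundary_pow h hp
  rw [boundary_mass h] at hb
  simp only [Nat.add_sub_cancel] at hB ⊢
  set ρ := ‖p‖ with hρ
  have hρ0 : 0 < ρ := by linarith
  have hq : 0 < ρ ^ 2 - 1 := by nlinarith
  have h1 : ∫ z, ((ρ ^ 2 - 1) / ‖z.1 - p‖ ^ 2) ^ (j + 2) ∂V
      ≤ (ρ ^ 2 - 1) ^ (j + 2) * (ρ - 1)⁻¹ ^ j * ∫ z, ‖z.1 - p‖⁻¹ ^ (j + 2 + 2) ∂V := by
    rw [← integral_const_mul]
    apply integral_mono_of_nonneg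
    · filter_upwards with z
      positivity
    · exact (integrable_pow h hp _).const_mul _
    · filter_upwards [h.ball] with z hz
      have h2 : ‖p‖ - ‖z.1‖ ≤ ‖p - z.1‖ := norm_sub_norm_le _ _
      rw [norm_sub_rev] at h2
      have h3 : ‖z.1 - p‖⁻¹ ≤ (ρ - 1)⁻¹ := by
        apply inv_anti₀ <;> linarith
      have h4 : 0 ≤ ‖z.1 - p‖⁻¹ := by positivity
      calc ((ρ ^ 2 - 1) / ‖z.1 - p‖ ^ 2) ^ (j + 2)
          = (ρ ^ 2 - 1) ^ (j + 2) * (‖z.1 - p‖⁻¹ ^ j * ‖z.1 - p‖⁻¹ ^ (j + 2 + 2)) := by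
            rw [div_eq_mul_inv, ← inv_pow, mul_pow, ← pow_mul, ← pow_add]
            congr 2
            ring
        _ ≤ (ρ ^ 2 - 1) ^ (j + 2) * ((ρ - 1)⁻¹ ^ j * ‖z.1 - p‖⁻¹ ^ (j + 2 + 2)) := by
            gcongr
        _ = _ := by ring
  set I := ∫ z, ‖z.1 - p‖⁻¹ ^ (j + 2 + 2) ∂V with hI
  have hk0 : (0 : ℝ) < ((j + 2 : ℕ) : ℝ) := by positivity
  have h5 : I ≤ 2 * ρ⁻¹ ^ j * V.real Set.univ / (ρ ^ 2 - 1) ^ 2 := by
    rw [le_div_iff₀ (by positivity)]
    have h6 : (((j + 2 : ℕ) : ℝ) / 2) * (ρ ^ 2 - 1) ^ 2 * I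
        ≤ ρ⁻¹ ^ j * (((j + 2 : ℕ) : ℝ) * V.real Set.univ) := hB.trans hb
    have h7 : ((j + 2 : ℕ) : ℝ) * (I * (ρ ^ 2 - 1) ^ 2)
        ≤ ((j + 2 : ℕ) : ℝ) * (2 * ρ⁻¹ ^ j * V.real Set.univ) := by
      linarith
    exact le_of_mul_le_mul_left h7 hk0
  have hρ1 : 0 < ρ - 1 := by linarith
  calc ∫ z, ((ρ ^ 2 - 1) / ‖z.1 - p‖ ^ 2) ^ (j + 2) ∂V
      ≤ (ρ ^ 2 - 1) ^ (j + 2) * (ρ - 1)⁻¹ ^ j * I := h1
    _ ≤ (ρ ^ 2 - 1) ^ (j + 2) * (ρ - 1)⁻¹ ^ j *
        (2 * ρ⁻¹ ^ j * V.real Set.univ / (ρ ^ 2 - 1) ^ 2) := by gcongr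
    _ = 2 * (1 + ρ⁻¹) ^ j * V.real Set.univ := by
        have e1 : (ρ ^ 2 - 1) ^ (j + 2) = ((ρ - 1) * (ρ + 1)) ^ j * (ρ ^ 2 - 1) ^ 2 := by
          rw [pow_add]; congr 2; ring
        have e2 : (1 + ρ⁻¹) = (ρ + 1) * ρ⁻¹ := by field_simp
        rw [e1, e2, mul_pow, mul_pow, inv_pow, inv_pow]
        field_simp

end FBV
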