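import Pool.Agent.Lib_helper78.FB.Brendle

/-!
# The bound near the identity
-/

open MeasureTheory InnerProductSpace Filter Topology
open scoped RealInnerProductSpace ContDiff

noncomputable section

namespace FBV

variable {n k : ℕ} {V : Measure (E n × (E n →L[ℝ] E n))} {σ : Measure (E n)}

theorem chord {a b t : ℝ} (ha : 0 ≤ a) (hat : a ≤ t) (htb : t ≤ b) (hab : a < b) (k : ℕ) :
    t ^ k ≤ ((b - t) * a ^ k + (t - a) * b ^ k) / (b - a) := by
  have h0' : b - a ≠ 0 := by linarith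
  have g1 : 0 ≤ (b - t) / (b - a) := div_nonneg (by linarith) (by linarith)
  have g2 : 0 ≤ (t - a) / (b - a) := div_nonneg (by linarith) (by linarith)
  have g3 : (b - t) / (b - a) + (t - a) / (b - a) = 1 := by
    field_simp
    ring
  have hc := (convexOn_pow (𝕜 := ℝ) k).2 (Set.mem_Ici.2 ha)
    (Set.mem_Ici.2 (ha.trans (hat.trans htb))) g1 g2 g3
  simp only [smul_eq_mul] at hc
  have h0 : b - a ≠ 0 := by linarith
  have e1 : (b - t) / (b - a) * a + (t - a) / (b - a) * b = t := by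
    field_simp
    ring
  rw [e1] at hc
  refine hc.trans (le_of_eq ?_)
  field_simp

theorem int_chord (hk : 2 ≤ k) (h : IsFBStationary n k V σ) {p : E n} (hp : 1 < ‖p‖) :
    ∫ z, ((‖p‖ ^ 2 - 1) / ‖z.1 - p‖ ^ 2) ^ k ∂V
      ≤ ((1 + ‖p‖⁻¹) * ((1 - ‖p‖⁻¹) / (1 + ‖p‖⁻¹)) ^ k
        + (1 - ‖p‖⁻¹) * ((1 + ‖p‖⁻¹) / (1 - ‖p‖⁻¹)) ^ k) / 2 * V.real Set.univ := by
  have hF := h.finV
  have hA := int_A hk h hp
  have hL : Integrable (fun z : E n × (E n →L[ℝ] E n) => (‖p‖ ^ 2 - 1) / ‖z.1 - p‖ ^ 2) V := by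
    refine ((integrable_pow h hp 2).const_mul (‖p‖ ^ 2 - 1)).congr ?_
    filter_upwards with z
    rw [inv_pow, div_eq_mul_inv]
  set ρ := ‖p‖ with hρ
  have hρ0 : 0 < ρ := by linarith
  have hρ1 : 0 < ρ - 1 := by linarith
  set a := (1 - ρ⁻¹) / (1 + ρ⁻¹) with ha
  set b := (1 + ρ⁻¹) / (1 - ρ⁻¹) with hb
  have hr1 : 0 < 1 - ρ⁻¹ := by
    have : ρ⁻¹ < 1 := inv_lt_one_of_one_lt₀ hp
    linarith
  have ha' : a = (ρ - 1) / (ρ + 1) := by
    rw [ha]
    field_simp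
  have hb' : b = (ρ + 1) / (ρ - 1) := by
    rw [hb]
    have : ρ - 1 ≠ 0 := hρ1.ne'
    rw [div_eq_div_iff hr1.ne' this]
    field_simp
  have ha0 : 0 ≤ a := by rw [ha']; positivity
  have hab : a < b := by
    rw [ha', hb', div_lt_div_iff₀ (by linarith) hρ1]
    nlinarith
  have hba : 0 < b - a := by linarith
  have hpow : a ^ k ≤ b ^ k := pow_le_pow_left₀ ha0 hab.le k
  have h1 : ∫ z, ((ρ ^ 2 - 1) / ‖z.1 - p‖ ^ 2) ^ k ∂V
      ≤ ∫ z, ((b * a ^ k - a * b ^ k) / (b - a)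
        + (b ^ k - a ^ k) / (b - a) * ((ρ ^ 2 - 1) / ‖z.1 - p‖ ^ 2)) ∂V := by
    apply integral_mono_of_nonneg
    · filter_upwards with z
      have : 0 ≤ ρ ^ 2 - 1 := by nlinarith
      positivity
    · exact (integrable_const _).add (hL.const_mul _)
    · filter_upwards [h.ball] with z hz
      obtain ⟨d1, d2⟩ := dist_bounds hp hz
      have hw : 0 < ‖z.1 - p‖ ^ 2 := lt_of_lt_of_le (by positivity) d1
      have t1 : a ≤ (ρ ^ 2 - 1) / ‖z.1 - p‖ ^ 2 := by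
        rw [ha', div_le_div_iff₀ (by linarith) hw]
        calc (ρ - 1) * ‖z.1 - p‖ ^ 2 ≤ (ρ - 1) * (ρ + 1) ^ 2 := by gcongr
          _ = (ρ ^ 2 - 1) * (ρ + 1) := by ring
      have t2 : (ρ ^ 2 - 1) / ‖z.1 - p‖ ^ 2 ≤ b := by
        rw [hb', div_le_div_iff₀ hw hρ1]
        calc (ρ ^ 2 - 1) * (ρ - 1) = (ρ + 1) * (ρ - 1) ^ 2 := by ring
          _ ≤ (ρ + 1) * ‖z.1 - p‖ ^ 2 := by gcongr
      refine (chord ha0 t1 t2 hab k).trans (le_of_eq ?_)
      field_simp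
      ring
  refine h1.trans ?_
  rw [integral_add (integrable_const _) (hL.const_mul _), integral_const_mul]
  simp only [integral_const, smul_eq_mul]
  have h2 : (b ^ k - a ^ k) / (b - a) * ∫ z, (ρ ^ 2 - 1) / ‖z.1 - p‖ ^ 2 ∂V
      ≤ (b ^ k - a ^ k) / (b - a) * V.real Set.univ :=
    mul_le_mul_of_nonneg_left hA (div_nonneg (by linarith) hba.le)
  have e1 : (b - 1) / (b - a) = (1 + ρ⁻¹) / 2 := by
    rw [ha', hb']
    have : ρ - 1 ≠ 0 := hρ1.ne'
    have h3 : (ρ + 1) / (ρ - 1) - (ρ - 1) / (ρ + 1) = 4 * ρ / ((ρ - 1) * (ρ + 1)) := by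
      field_simp
      ring
    have h4 : (ρ + 1) / (ρ - 1) - 1 = 2 / (ρ - 1) := by
      field_simp
      ring
    rw [h3, h4]
    field_simp
    ring
  have e2 : (1 - a) / (b - a) = (1 - ρ⁻¹) / 2 := by
    have : (b - 1) / (b - a) + (1 - a) / (b - a) = 1 := by
      field_simp
      ring
    linarith
  have e3 : (b * a ^ k - a * b ^ k) / (b - a) + (b ^ k - a ^ k) / (b - a)
      = ((1 + ρ⁻¹) * a ^ k + (1 - ρ⁻¹) * b ^ k) / 2 := by
    have : (b * a ^ k - a * b ^ k) / (b - a) + (b ^ k - a ^ k) / (b - a)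
        = (b - 1) / (b - a) * a ^ k + (1 - a) / (b - a) * b ^ k := by
      field_simp
      ring
    rw [this, e1, e2]
    ring
  calc V.real Set.univ * ((b * a ^ k - a * b ^ k) / (b - a))
        + (b ^ k - a ^ k) / (b - a) * ∫ z, (ρ ^ 2 - 1) / ‖z.1 - p‖ ^ 2 ∂V
      ≤ V.real Set.univ * ((b * a ^ k - a * b ^ k) / (b - a))
        + (b ^ k - a ^ k) / (b - a) * V.real Set.univ := by linarith
    _ = ((b * a ^ k - a * b ^ k) / (b - a) + (b ^ k - a ^ k) / (b - a)) * V.real Set.univ := by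
        ring
    _ = _ := by rw [e3]

end FBV
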