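import Pool.Agent.Lib_helper78.FB.Second

/-!
# Differentiation of the conformal volume
-/

open MeasureTheory InnerProductSpace Filter Topology
open scoped RealInnerProductSpace ContDiff

noncomputable section

namespace FBV

/-- The conformal factor at `x` of the conformal diffeomorphism of the unit ball with
parameter `c` (`‖c‖ < 1`). -/
def confFactor {n : ℕ} (c x : E n) : ℝ :=
  (1 - ‖c‖ ^ 2) / (1 - 2 * ⟪c, x⟫ + ‖c‖ ^ 2 * ‖x‖ ^ 2)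

/-- The `k`-volume of the image of the varifold `V` under the conformal diffeomorphism of the
unit ball with parameter `c`. -/
def confVol {n : ℕ} (k : ℕ) (V : Measure (E n × (E n →L[ℝ] E n))) (c : E n) : ℝ :=
  ∫ z, (confFactor c z.1) ^ k ∂V

variable {n k : ℕ} {V : Measure (E n × (E n →L[ℝ] E n))} {σ : Measure (E n)}

/-- the integrand and its derivatives as functions of `(τ, u, s)` -/
def F0 (k : ℕ) (τ u s : ℝ) : ℝ := ((1 - τ ^ 2) / (1 - 2 * (τ * u) + τ ^ 2 * s)) ^ k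

def F1 (k : ℕ) (τ u s : ℝ) : ℝ :=
  k * ((1 - τ ^ 2) / (1 - 2 * (τ * u) + τ ^ 2 * s)) ^ (k - 1) *
    ((2 * u - 2 * τ * (1 + s) + 2 * u * τ ^ 2) / (1 - 2 * (τ * u) + τ ^ 2 * s) ^ 2)

def F2 (k : ℕ) (τ u s : ℝ) : ℝ :=
  k * (((k - 1 : ℕ) : ℝ) * ((1 - τ ^ 2) / (1 - 2 * (τ * u) + τ ^ 2 * s)) ^ (k - 1 - 1) *
    ((2 * u - 2 * τ * (1 + s) + 2 * u * τ ^ 2) / (1 - 2 * (τ * u) + τ ^ 2 * s) ^ 2)) *
    ((2 * u - 2 * τ * (1 + s) + 2 * u * τ ^ 2) / (1 - 2 * (τ * u) + τ ^ 2 * s) ^ 2) +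
  k * ((1 - τ ^ 2) / (1 - 2 * (τ * u) + τ ^ 2 * s)) ^ (k - 1) *
    (((-2 * (1 + s) + 4 * u * τ) * (1 - 2 * (τ * u) + τ ^ 2 * s) ^ 2 -
      (2 * u - 2 * τ * (1 + s) + 2 * u * τ ^ 2) *
        (2 * (1 - 2 * (τ * u) + τ ^ 2 * s) * (-2 * u + 2 * τ * s)))
      / ((1 - 2 * (τ * u) + τ ^ 2 * s) ^ 2) ^ 2)

theorem W_pos {τ u s : ℝ} (hτ : |τ| ≤ 1 / 2) (hs : s ≤ 1) (hus : u ^ 2 ≤ s) :
    0 < 1 - 2 * (τ * u) + τ ^ 2 * s := by
  have h1 : τ ^ 2 ≤ (1 / 2) ^ 2 := by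
    rw [← sq_abs]
    exact pow_le_pow_left₀ (abs_nonneg _) hτ 2
  -- `1 - 2 τ u + τ² s ≥ (1 - τ u)²`, and `(τ u)² ≤ 1/4`
  have h2 : (τ * u) ^ 2 ≤ 1 / 4 := by
    rw [mul_pow]
    have : u ^ 2 ≤ 1 := hus.trans hs
    nlinarith [sq_nonneg u, sq_nonneg τ]
  have h3 : (τ * u) ^ 2 ≤ τ ^ 2 * s := by
    rw [mul_pow]
    exact mul_le_mul_of_nonneg_left hus (sq_nonneg _)
  have h4 : τ * u ≤ 1 / 2 := by nlinarith
  nlinarith [sq_nonneg (τ * u - 1)]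

theorem hasDerivAt_F0 (k : ℕ) {τ u s : ℝ} (hW : 1 - 2 * (τ * u) + τ ^ 2 * s ≠ 0) :
    HasDerivAt (fun t => F0 k t u s) (F1 k τ u s) τ := by
  have hN : HasDerivAt (fun t : ℝ => 1 - t ^ 2) (-(2 * τ)) τ := by
    have := ((hasDerivAt_pow 2 τ).const_sub 1)
    simpa using this
  have hW' : HasDerivAt (fun t : ℝ => 1 - 2 * (t * u) + t ^ 2 * s) (-2 * u + 2 * τ * s) τ := by
    have h1 := (((hasDerivAt_id τ).mul_const u).const_mul 2).const_sub 1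
    have h2 := ((hasDerivAt_pow 2 τ).mul_const s)
    have h3 := h1.fun_add h2
    refine h3.congr_deriv ?_
    push_cast
    ring
  have h1 := (hN.fun_div hW' hW).fun_pow k
  refine h1.congr_deriv ?_
  unfold F1
  congr 1
  congr 1
  ring

theorem hasDerivAt_F1 (k : ℕ) {τ u s : ℝ} (hW : 1 - 2 * (τ * u) + τ ^ 2 * s ≠ 0) :
    HasDerivAt (fun t => F1 k t u s) (F2 k τ u s) τ := by
  have hN : HasDerivAt (fun t : ℝ => 1 - t ^ 2) (-(2 * τ)) τ := by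
    have := ((hasDerivAt_pow 2 τ).const_sub 1)
    simpa using this
  have hW' : HasDerivAt (fun t : ℝ => 1 - 2 * (t * u) + t ^ 2 * s) (-2 * u + 2 * τ * s) τ := by
    have h1 := (((hasDerivAt_id τ).mul_const u).const_mul 2).const_sub 1
    have h2 := ((hasDerivAt_pow 2 τ).mul_const s)
    have h3 := h1.fun_add h2
    refine h3.congr_deriv ?_
    push_cast
    ring
  have hG : HasDerivAt (fun t : ℝ => 2 * u - 2 * t * (1 + s) + 2 * u * t ^ 2)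
      (-2 * (1 + s) + 4 * u * τ) τ := by
    have h1 := ((((hasDerivAt_id τ).const_mul 2).mul_const (1 + s)).const_sub (2 * u))
    have h2 := ((hasDerivAt_pow 2 τ).const_mul (2 * u))
    have h3 := h1.fun_add h2
    refine h3.congr_deriv ?_
    push_cast
    ring
  have h1 := (((hN.fun_div hW' hW).fun_pow (k - 1)).const_mul (k : ℝ)).fun_mul
    (hG.fun_div (hW'.fun_pow 2) (pow_ne_zero 2 hW))
  refine h1.congr_deriv ?_
  unfold F2
  congr 1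
  · congr 1
    congr 1
    congr 1
    congr 1
    ring
  · congr 1
    congr 1
    push_cast
    ring

/-- the compact parameter set -/
def Kset : Set (ℝ × ℝ × ℝ) :=
  (Set.Icc (-(1 / 2)) (1 / 2) ×ˢ (Set.Icc (-1) 1 ×ˢ Set.Icc 0 1)) ∩ {q | q.2.1 ^ 2 ≤ q.2.2}

theorem isCompact_Kset : IsCompact Kset := by
  apply (isCompact_Icc.prod (isCompact_Icc.prod isCompact_Icc)).inter_right
  exact isClosed_le (by fun_prop) (by fun_prop)

theorem W_ne_Kset {q : ℝ × ℝ × ℝ} (hq : q ∈ Kset) :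
    1 - 2 * (q.1 * q.2.1) + q.1 ^ 2 * q.2.2 ≠ 0 := by
  obtain ⟨⟨h1, h2, h3⟩, h4⟩ := hq
  exact (W_pos (abs_le.2 h1) h3.2 h4).ne'

theorem bound_F1 (k : ℕ) : ∃ C, ∀ τ u s : ℝ, |τ| ≤ 1 / 2 → s ≤ 1 → u ^ 2 ≤ s →
    ‖F1 k τ u s‖ ≤ C := by
  have hc : ContinuousOn (fun q : ℝ × ℝ × ℝ => F1 k q.1 q.2.1 q.2.2) Kset := by
    unfold F1
    have hne : ∀ q ∈ Kset, 1 - 2 * (q.1 * q.2.1) + q.1 ^ 2 * q.2.2 ≠ 0 := fun q hq => W_ne_Kset hq
    apply ContinuousOn.mul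
    · apply ContinuousOn.mul continuousOn_const
      apply ContinuousOn.pow
      exact ContinuousOn.div (by fun_prop) (by fun_prop) hne
    · exact ContinuousOn.div (by fun_prop) (by fun_prop) (fun q hq => pow_ne_zero 2 (hne q hq))
  obtain ⟨C, hC⟩ := isCompact_Kset.exists_bound_of_continuousOn hc
  refine ⟨C, fun τ u s h1 h2 h3 => hC (τ, u, s) ⟨⟨abs_le.1 h1, ?_, ?_⟩, h3⟩⟩
  · have : u ^ 2 ≤ 1 := h3.trans h2
    exact abs_le.1 (abs_le_one_iff_mul_self_le_one.2 (by nlinarith))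
  · exact ⟨(sq_nonneg u).trans h3, h2⟩

theorem bound_F2 (k : ℕ) : ∃ C, ∀ τ u s : ℝ, |τ| ≤ 1 / 2 → s ≤ 1 → u ^ 2 ≤ s →
    ‖F2 k τ u s‖ ≤ C := by
  have hc : ContinuousOn (fun q : ℝ × ℝ × ℝ => F2 k q.1 q.2.1 q.2.2) Kset := by
    unfold F2
    have hne : ∀ q ∈ Kset, 1 - 2 * (q.1 * q.2.1) + q.1 ^ 2 * q.2.2 ≠ 0 := fun q hq => W_ne_Kset hq
    have hne2 : ∀ q ∈ Kset, (1 - 2 * (q.1 * q.2.1) + q.1 ^ 2 * q.2.2) ^ 2 ≠ 0 :=
      fun q hq => pow_ne_zero 2 (hne q hq)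
    have hd1 : ContinuousOn (fun q : ℝ × ℝ × ℝ =>
        (1 - q.1 ^ 2) / (1 - 2 * (q.1 * q.2.1) + q.1 ^ 2 * q.2.2)) Kset :=
      ContinuousOn.div (by fun_prop) (by fun_prop) hne
    have hd2 : ContinuousOn (fun q : ℝ × ℝ × ℝ =>
        (2 * q.2.1 - 2 * q.1 * (1 + q.2.2) + 2 * q.2.1 * q.1 ^ 2) /
          (1 - 2 * (q.1 * q.2.1) + q.1 ^ 2 * q.2.2) ^ 2) Kset :=
      ContinuousOn.div (by fun_prop) (by fun_prop) hne2
    apply ContinuousOn.add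
    · exact (continuousOn_const.mul ((continuousOn_const.mul (hd1.pow _)).mul hd2)).mul hd2
    · apply ContinuousOn.mul (continuousOn_const.mul (hd1.pow _))
      exact ContinuousOn.div (by fun_prop) (by fun_prop) (fun q hq => pow_ne_zero 2 (hne2 q hq))
  obtain ⟨C, hC⟩ := isCompact_Kset.exists_bound_of_continuousOn hc
  refine ⟨C, fun τ u s h1 h2 h3 => hC (τ, u, s) ⟨⟨abs_le.1 h1, ?_, ?_⟩, h3⟩⟩
  · have : u ^ 2 ≤ 1 := h3.trans h2
    exact abs_le.1 (abs_le_one_iff_mul_self_le_one.2 (by nlinarith))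
  · exact ⟨(sq_nonneg u).trans h3, h2⟩

theorem F1_zero (k : ℕ) (u s : ℝ) : F1 k 0 u s = 2 * k * u := by
  unfold F1
  simp
  ring

theorem F2_zero {k : ℕ} (hk : 2 ≤ k) (u s : ℝ) :
    F2 k 0 u s = 2 * k * (2 * ((k : ℝ) + 1) * u ^ 2 - 1 - s) := by
  unfold F2
  obtain ⟨j, rfl⟩ := Nat.exists_eq_add_of_le' hk
  simp only [show j + 2 - 1 = j + 1 from rfl]
  push_cast
  simp
  ring

theorem measurable_F (i : ℕ) (τ : ℝ) (e : E n) :
    Measurable (fun z : E n × (E n →L[ℝ] E n) => F0 i τ ⟪e, z.1⟫ (‖z.1‖ ^ 2)) ∧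
    Measurable (fun z : E n × (E n →L[ℝ] E n) => F1 i τ ⟪e, z.1⟫ (‖z.1‖ ^ 2)) ∧
    Measurable (fun z : E n × (E n →L[ℝ] E n) => F2 i τ ⟪e, z.1⟫ (‖z.1‖ ^ 2)) := by
  have m1 : Measurable (fun z : E n × (E n →L[ℝ] E n) => ⟪e, z.1⟫) := by fun_prop
  have m2 : Measurable (fun z : E n × (E n →L[ℝ] E n) => ‖z.1‖ ^ 2) := by fun_prop
  refine ⟨?_, ?_, ?_⟩
  · unfold F0
    fun_prop
  · unfold F1
    fun_prop
  · unfold F2
    fun_prop

theorem confVol_line {e : E n} (he : ‖e‖ = 1) (τ : ℝ) :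
    confVol k V (τ • e) = ∫ z, F0 k τ ⟪e, z.1⟫ (‖z.1‖ ^ 2) ∂V := by
  unfold confVol confFactor F0
  congr 1
  funext z
  rw [real_inner_smul_left, norm_smul, he, mul_one, Real.norm_eq_abs, sq_abs]

theorem mem_half {τ : ℝ} (hτ : |τ| < 1 / 2) : {t : ℝ | |t| < 1 / 2} ∈ 𝓝 τ :=
  (isOpen_lt continuous_abs continuous_const).mem_nhds hτ

theorem us_bound {e x : E n} (he : ‖e‖ = 1) (hx : ‖x‖ ≤ 1) :
    ‖x‖ ^ 2 ≤ 1 ∧ ⟪e, x⟫ ^ 2 ≤ ‖x‖ ^ 2 := by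
  refine ⟨pow_le_one₀ (norm_nonneg _) hx, ?_⟩
  rw [← sq_abs]
  apply pow_le_pow_left₀ (abs_nonneg _)
  have := abs_real_inner_le_norm e x
  rwa [he, one_mul] at this

theorem hasDerivAt_confVol (h : IsFBStationary n k V σ) {e : E n} (he : ‖e‖ = 1) {τ : ℝ}
    (hτ : |τ| < 1 / 2) :
    HasDerivAt (fun t : ℝ => confVol k V (t • e))
      (∫ z, F1 k τ ⟪e, z.1⟫ (‖z.1‖ ^ 2) ∂V) τ := by
  have hF := h.finV
  obtain ⟨C, hC⟩ := bound_F1 k
  have hc0 : ∃ C0, ∀ᵐ z ∂V, ‖F0 k τ ⟪e, z.1⟫ (‖z.1‖ ^ 2)‖ ≤ C0 := by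
    -- crude bound by continuity in the compact set
    have hc : ContinuousOn (fun q : ℝ × ℝ × ℝ => F0 k q.1 q.2.1 q.2.2) Kset := by
      unfold F0
      apply ContinuousOn.pow
      exact ContinuousOn.div (by fun_prop) (by fun_prop) (fun q hq => W_ne_Kset hq)
    obtain ⟨C0, hC0⟩ := isCompact_Kset.exists_bound_of_continuousOn hc
    refine ⟨C0, ?_⟩
    filter_upwards [h.ball] with z hz
    obtain ⟨b1, b2⟩ := us_bound he hz
    refine hC0 (τ, ⟪e, z.1⟫, ‖z.1‖ ^ 2) ⟨⟨abs_le.1 hτ.le, ?_, ?_⟩, b2⟩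
    · have : ⟪e, z.1⟫ ^ 2 ≤ 1 := b2.trans b1
      exact abs_le.1 (abs_le_one_iff_mul_self_le_one.2 (by nlinarith))
    · exact ⟨by positivity, b1⟩
  obtain ⟨C0, hC0⟩ := hc0
  have hB := hasDerivAt_integral_of_dominated_loc_of_deriv_le (μ := V) (𝕜 := ℝ)
    (F := fun (t : ℝ) (z : E n × (E n →L[ℝ] E n)) => F0 k t ⟪e, z.1⟫ (‖z.1‖ ^ 2))
    (F' := fun (t : ℝ) (z : E n × (E n →L[ℝ] E n)) => F1 k t ⟪e, z.1⟫ (‖z.1‖ ^ 2))
    (x₀ := τ) (bound := fun _ => C) (mem_half hτ)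
    (Eventually.of_forall fun t => (measurable_F k t e).1.aestronglyMeasurable)
    (Integrable.of_bound (measurable_F k τ e).1.aestronglyMeasurable C0 hC0)
    (measurable_F k τ e).2.1.aestronglyMeasurable
    (by
      filter_upwards [h.ball] with z hz
      intro t ht
      obtain ⟨b1, b2⟩ := us_bound he hz
      exact hC _ _ _ (le_of_lt ht) b1 b2)
    (integrable_const _)
    (by
      filter_upwards [h.ball] with z hz
      intro t ht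
      obtain ⟨b1, b2⟩ := us_bound he hz
      exact hasDerivAt_F0 k (W_pos (le_of_lt ht) b1 b2).ne')
  have h2 := hB.2
  have h3 : (fun t : ℝ => confVol k V (t • e))
      = fun t : ℝ => ∫ z, F0 k t ⟪e, z.1⟫ (‖z.1‖ ^ 2) ∂V := by
    funext t
    exact confVol_line he t
  rw [h3]
  exact h2

theorem hasDerivAt_confVol' (h : IsFBStationary n k V σ) {e : E n} (he : ‖e‖ = 1) :
    HasDerivAt (fun t : ℝ => ∫ z, F1 k t ⟪e, z.1⟫ (‖z.1‖ ^ 2) ∂V)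
      (∫ z, F2 k 0 ⟪e, z.1⟫ (‖z.1‖ ^ 2) ∂V) 0 := by
  have hF := h.finV
  obtain ⟨C, hC⟩ := bound_F2 k
  obtain ⟨C1, hC1⟩ := bound_F1 k
  have h0 : |(0 : ℝ)| < 1 / 2 := by norm_num
  have hB := hasDerivAt_integral_of_dominated_loc_of_deriv_le (μ := V) (𝕜 := ℝ)
    (F := fun (t : ℝ) (z : E n × (E n →L[ℝ] E n)) => F1 k t ⟪e, z.1⟫ (‖z.1‖ ^ 2))
    (F' := fun (t : ℝ) (z : E n × (E n →L[ℝ] E n)) => F2 k t ⟪e, z.1⟫ (‖z.1‖ ^ 2))
    (x₀ := 0) (bound := fun _ => C) (mem_half h0)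
    (Eventually.of_forall fun t => (measurable_F k t e).2.1.aestronglyMeasurable)
    (Integrable.of_bound (measurable_F k 0 e).2.1.aestronglyMeasurable C1 (by
      filter_upwards [h.ball] with z hz
      obtain ⟨b1, b2⟩ := us_bound he hz
      exact hC1 _ _ _ h0.le b1 b2))
    (measurable_F k 0 e).2.2.aestronglyMeasurable
    (by
      filter_upwards [h.ball] with z hz
      intro t ht
      obtain ⟨b1, b2⟩ := us_bound he hz
      exact hC _ _ _ (le_of_lt ht) b1 b2)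
    (integrable_const _)
    (by
      filter_upwards [h.ball] with z hz
      intro t ht
      obtain ⟨b1, b2⟩ := us_bound he hz
      exact hasDerivAt_F1 k (W_pos (le_of_lt ht) b1 b2).ne')
  exact hB.2

theorem deriv_confVol (hk : 2 ≤ k) (h : IsFBStationary n k V σ) {e : E n} (he : ‖e‖ = 1) :
    deriv (fun t : ℝ => confVol k V (t • e)) 0 = 0 := by
  have h0 : |(0 : ℝ)| < 1 / 2 := by norm_num
  rw [(hasDerivAt_confVol h he h0).deriv]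
  simp_rw [F1_zero]
  rw [integral_const_mul, first_order hk h e, mul_zero]

theorem deriv2_confVol (hk : 2 ≤ k) (h : IsFBStationary n k V σ) {e : E n} (he : ‖e‖ = 1) :
    deriv (deriv (fun t : ℝ => confVol k V (t • e))) 0
      = 2 * k * ∫ z, (2 * ((k : ℝ) + 1) * ⟪e, z.1⟫ ^ 2 - 1 - ‖z.1‖ ^ 2) ∂V := by
  have h0 : |(0 : ℝ)| < 1 / 2 := by norm_num
  have h1 : deriv (fun t : ℝ => confVol k V (t • e))
      =ᶠ[𝓝 0] fun t : ℝ => ∫ z, F1 k t ⟪e, z.1⟫ (‖z.1‖ ^ 2) ∂V := by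
    filter_upwards [mem_half h0] with t ht
    exact (hasDerivAt_confVol h he ht).deriv
  rw [h1.deriv_eq, (hasDerivAt_confVol' h he).deriv]
  simp_rw [F2_zero hk]
  rw [integral_const_mul]

theorem second_order_confVol (hk : 2 ≤ k) (h : IsFBStationary n k V σ)
    {e : Fin (k + 1) → E n} (he : Orthonormal ℝ e) :
    ∑ i, deriv (deriv (fun t : ℝ => confVol k V (t • e i))) 0
      ≤ -(2 * k * ((k : ℝ) + 1)) * ∫ z, (1 - ‖z.1‖ ^ 2) ∂V := by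
  have h1 := second_order hk h he
  simp_rw [fun i => deriv2_confVol hk h (he.1 i)]
  rw [← Finset.mul_sum]
  have hk0 : (0 : ℝ) ≤ 2 * k := by positivity
  have := mul_le_mul_of_nonneg_left h1 hk0
  linarith

end FBV
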