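import Pool.Agent.Lib_helper78.FB.FirstVar

/-!
# The vector fields used in the proof
-/

open MeasureTheory InnerProductSpace Filter Topology
open scoped RealInnerProductSpace ContDiff

noncomputable section

namespace FBV

variable {n k : ℕ}

/-- the family of vector fields, all of the form `f y + g (y - p)` -/
def fld (p : E n) (i : ℕ) (a0 a1 b1 b2 b3 : ℝ) (y : E n) : E n :=
  (a0 + a1 * (‖y - p‖⁻¹) ^ i) • y
    + (b1 * (‖y - p‖⁻¹) ^ i + b2 * ((1 - ‖y‖ ^ 2) * (‖y - p‖⁻¹) ^ (i + 2))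
      + b3 * ((1 - ‖y‖ ^ 2) * (‖y - p‖⁻¹) ^ i)) • (y - p)

theorem hasFDerivAt_inv_norm {p x : E n} (hx : x ≠ p) :
    HasFDerivAt (fun y : E n => ‖y - p‖⁻¹) ((-(‖x - p‖⁻¹) ^ 3) • innerSL ℝ (x - p)) x := by
  have hne : x - p ≠ 0 := sub_ne_zero.2 hx
  have hpos : 0 < ‖x - p‖ := norm_pos_iff.2 hne
  have h1 : HasFDerivAt (fun y : E n => ‖y - p‖ ^ 2) (2 • innerSL ℝ (x - p)) x := by
    have := ((hasFDerivAt_id x).sub_const p).norm_sq
    simpa using this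
  have h0 : √(‖x - p‖ ^ 2) ≠ 0 := by
    rw [Real.sqrt_sq hpos.le]; exact hpos.ne'
  have h2 := (hasDerivAt_inv h0).comp_hasFDerivAt x (h1.sqrt (by positivity))
  have h3 : ((fun t : ℝ => t⁻¹) ∘ fun y : E n => √(‖y - p‖ ^ 2)) = fun y : E n => ‖y - p‖⁻¹ := by
    funext y
    simp only [Function.comp_apply]
    rw [Real.sqrt_sq (norm_nonneg _)]
  have h2' : HasFDerivAt (fun y : E n => ‖y - p‖⁻¹) _ x := h3 ▸ h2
  refine h2'.congr_fderiv ?_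
  rw [Real.sqrt_sq hpos.le]
  ext v
  simp
  field_simp

theorem hasFDerivAt_pow_inv_norm {p x : E n} (hx : x ≠ p) (i : ℕ) :
    HasFDerivAt (fun y : E n => (‖y - p‖⁻¹) ^ i)
      ((-(i : ℝ) * (‖x - p‖⁻¹) ^ (i + 2)) • innerSL ℝ (x - p)) x := by
  have h := (hasDerivAt_pow i (‖x - p‖⁻¹)).comp_hasFDerivAt x (hasFDerivAt_inv_norm hx)
  refine h.congr_fderiv ?_
  ext v
  rcases i with _ | i
  · simp
  · simp
    ring

theorem hasFDerivAt_one_sub {x : E n} :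
    HasFDerivAt (fun y : E n => 1 - ‖y‖ ^ 2) ((-2 : ℝ) • innerSL ℝ x) x := by
  have h := ((hasFDerivAt_id x).norm_sq).const_sub 1
  refine h.congr_fderiv ?_
  ext v
  simp

theorem hasFDerivAt_mul_inv_norm {p x : E n} (hx : x ≠ p) (i : ℕ) :
    HasFDerivAt (fun y : E n => (1 - ‖y‖ ^ 2) * (‖y - p‖⁻¹) ^ i)
      ((-2 * (‖x - p‖⁻¹) ^ i) • innerSL ℝ x
        + (-(i : ℝ) * (1 - ‖x‖ ^ 2) * (‖x - p‖⁻¹) ^ (i + 2)) • innerSL ℝ (x - p)) x := by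
  have h := (hasFDerivAt_one_sub (x := x)).fun_mul (hasFDerivAt_pow_inv_norm hx i)
  refine h.congr_fderiv ?_
  ext v
  simp
  ring

theorem contDiffAt_fld {p : E n} (i : ℕ) (a0 a1 b1 b2 b3 : ℝ) {y : E n} (hy : y ≠ p) :
    ContDiffAt ℝ ∞ (fld p i a0 a1 b1 b2 b3) y := by
  have h1 : ContDiffAt ℝ ∞ (fun y : E n => ‖y - p‖⁻¹) y := by
    have h2 : ContDiffAt ℝ ∞ (fun y : E n => ‖y - p‖) y :=
      (contDiffAt_id.sub contDiffAt_const).norm ℝ (sub_ne_zero.2 hy)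
    exact h2.inv (norm_ne_zero_iff.2 (sub_ne_zero.2 hy))
  have h3 : ContDiffAt ℝ ∞ (fun y : E n => 1 - ‖y‖ ^ 2) y :=
    contDiffAt_const.sub (contDiffAt_id.norm_sq ℝ)
  unfold fld
  apply ContDiffAt.add
  · exact (contDiffAt_const.add (contDiffAt_const.mul (h1.pow i))).fun_smul contDiffAt_id
  · apply ContDiffAt.fun_smul
    · exact ((contDiffAt_const.mul (h1.pow i)).add (contDiffAt_const.mul
        (h3.mul (h1.pow (i + 2))))).add (contDiffAt_const.mul (h3.mul (h1.pow i)))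
    · exact contDiffAt_id.sub contDiffAt_const

theorem planeTrace_fld {p x : E n} (hx : x ≠ p) (i : ℕ) (a0 a1 b1 b2 b3 : ℝ)
    {P : E n →L[ℝ] E n} (hP : IsPlane k P) :
    planeTrace P (fderiv ℝ (fld p i a0 a1 b1 b2 b3) x) =
      k * (a0 + a1 * (‖x - p‖⁻¹) ^ i) - a1 * i * (‖x - p‖⁻¹) ^ (i + 2) * ⟪x, P (x - p)⟫
      + k * (b1 * (‖x - p‖⁻¹) ^ i + b2 * ((1 - ‖x‖ ^ 2) * (‖x - p‖⁻¹) ^ (i + 2))
          + b3 * ((1 - ‖x‖ ^ 2) * (‖x - p‖⁻¹) ^ i))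
      - b1 * i * (‖x - p‖⁻¹) ^ (i + 2) * ⟪x - p, P (x - p)⟫
      + b2 * (-2 * (‖x - p‖⁻¹) ^ (i + 2) * ⟪x, P (x - p)⟫
          - (i + 2) * (1 - ‖x‖ ^ 2) * (‖x - p‖⁻¹) ^ (i + 4) * ⟪x - p, P (x - p)⟫)
      + b3 * (-2 * (‖x - p‖⁻¹) ^ i * ⟪x, P (x - p)⟫
          - i * (1 - ‖x‖ ^ 2) * (‖x - p‖⁻¹) ^ (i + 2) * ⟪x - p, P (x - p)⟫) := by
  have hf := ((hasFDerivAt_pow_inv_norm hx i).const_mul a1).const_add a0
  have hg := (((hasFDerivAt_pow_inv_norm hx i).const_mul b1).fun_add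
    ((hasFDerivAt_mul_inv_norm hx (i + 2)).const_mul b2)).fun_add
    ((hasFDerivAt_mul_inv_norm hx i).const_mul b3)
  have h1 := hf.fun_smul (hasFDerivAt_id x)
  have h2 := hg.fun_smul ((hasFDerivAt_id x).sub_const p)
  have h3 := h1.fun_add h2
  have h4 : HasFDerivAt (fld p i a0 a1 b1 b2 b3) _ x := h3
  rw [h4.fderiv]
  simp only [planeTrace_add, planeTrace_smul, planeTrace_smulRight, planeTrace_id hP, id]
  have hb : ⟪x - p, P x⟫ = ⟪x, P (x - p)⟫ := by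
    rw [← hP.symm, real_inner_comm]
  simp only [add_apply, smul_apply, innerSL_apply_apply,
    smul_eq_mul, hb]
  push_cast
  ring

end FBV
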