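import Pool.Agent.Lib_helper78.FB.Basic

/-!
# The first variation formula for fields smooth near the closed ball
-/

open MeasureTheory InnerProductSpace Filter Topology
open scoped RealInnerProductSpace ContDiff

noncomputable section

namespace FBV

variable {n k : ℕ} {V : Measure (E n × (E n →L[ℝ] E n))} {σ : Measure (E n)}

/-- Cut-off: a vector field smooth on a ball of radius `R > 1` agrees near the closed unit ball
with a globally smooth one. -/
theorem exists_cutoff {R : ℝ} (hR : 1 < R) {X : E n → E n}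
    (hX : ∀ y, ‖y‖ < R → ContDiffAt ℝ ∞ X y) :
    ∃ Y : E n → E n, ContDiff ℝ ∞ Y ∧ ∀ x, ‖x‖ ≤ 1 → Y =ᶠ[𝓝 x] X := by
  let b : ContDiffBump (0 : E n) :=
    ⟨1 + (R - 1) / 3, 1 + 2 * (R - 1) / 3, by linarith, by linarith⟩
  refine ⟨fun y => b y • X y, ?_, ?_⟩
  · rw [contDiff_iff_contDiffAt]
    intro y
    by_cases hy : ‖y‖ < R
    · exact b.contDiffAt.smul (hX y hy)
    · push Not at hy
      have h0 : (fun y => b y • X y) =ᶠ[𝓝 y] fun _ => 0 := by
        have hU : {w : E n | 1 + 2 * (R - 1) / 3 < ‖w‖} ∈ 𝓝 y := by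
          apply (isOpen_lt continuous_const continuous_norm).mem_nhds
          simp only [Set.mem_setOf_eq]
          linarith
        filter_upwards [hU] with w hw
        have : b w = 0 := b.zero_of_le_dist (by
          rw [dist_zero_right]
          exact le_of_lt hw)
        rw [this, zero_smul]
      exact contDiffAt_const.congr_of_eventuallyEq h0
  · intro x hx
    have hU : {w : E n | ‖w‖ < 1 + (R - 1) / 3} ∈ 𝓝 x := by
      apply (isOpen_lt continuous_norm continuous_const).mem_nhds
      simp only [Set.mem_setOf_eq]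
      linarith
    filter_upwards [hU] with w hw
    have : b w = 1 := b.one_of_mem_closedBall (by
      rw [mem_closedBall_zero_iff]
      exact le_of_lt hw)
    rw [this, one_smul]

theorem bound_of_continuous {F : E n × (E n →L[ℝ] E n) → ℝ} (hF : Continuous F)
    (h : IsFBStationary n k V σ) : ∃ C, ∀ᵐ z ∂V, ‖F z‖ ≤ C := by
  obtain ⟨C, hC⟩ := ((isCompact_closedBall (0 : E n) 1).prod
    (isCompact_closedBall (0 : E n →L[ℝ] E n) 1)).exists_bound_of_continuousOn hF.continuousOn
  refine ⟨C, ?_⟩
  filter_upwards [h.ball, h.plane] with z h1 h2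
  apply hC
  refine ⟨?_, ?_⟩
  · simpa using h1
  · simpa using h2.norm_le_one

theorem integrable_of_continuous {F : E n × (E n →L[ℝ] E n) → ℝ} (hF : Continuous F)
    (h : IsFBStationary n k V σ) : Integrable F V := by
  haveI := h.finV
  obtain ⟨C, hC⟩ := bound_of_continuous hF h
  exact Integrable.of_bound hF.aestronglyMeasurable C hC

/-- The first variation formula for fields which are smooth near the closed ball, and the
integrability of the divergence. -/
theorem firstVar (h : IsFBStationary n k V σ) {R : ℝ} (hR : 1 < R) {X : E n → E n}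
    (hX : ∀ y, ‖y‖ < R → ContDiffAt ℝ ∞ X y) :
    Integrable (fun z : E n × (E n →L[ℝ] E n) => planeTrace z.2 (fderiv ℝ X z.1)) V ∧
    ∫ z, planeTrace z.2 (fderiv ℝ X z.1) ∂V = ∫ x, ⟪X x, x⟫ ∂σ := by
  obtain ⟨Y, hY, hYX⟩ := exists_cutoff hR hX
  have h1 : ∀ᵐ z ∂V, planeTrace z.2 (fderiv ℝ Y z.1) = planeTrace z.2 (fderiv ℝ X z.1) := by
    filter_upwards [h.ball] with z hz
    rw [(hYX z.1 hz).fderiv_eq]
  have h2 : ∀ᵐ x ∂σ, ⟪Y x, x⟫ = ⟪X x, x⟫ := by
    filter_upwards [h.sphere] with x hx
    rw [(hYX x hx.le).eq_of_nhds]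
  have hc : Continuous (fun z : E n × (E n →L[ℝ] E n) => planeTrace z.2 (fderiv ℝ Y z.1)) := by
    have h3 : Continuous (fderiv ℝ Y) := hY.continuous_fderiv (by simp)
    exact continuous_planeTrace.comp (continuous_snd.prodMk (h3.comp continuous_fst))
  refine ⟨(integrable_of_continuous hc h).congr h1, ?_⟩
  rw [← integral_congr_ae h1, ← integral_congr_ae h2]
  exact h.first_variation Y hY

end FBV
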