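import Pool.Agent.Lib_helper78.FB.Short

/-!
# The second variation of volume in the conformal directions
-/

open MeasureTheory InnerProductSpace Filter Topology
open scoped RealInnerProductSpace ContDiff

noncomputable section

namespace FBV

variable {n k : ℕ} {V : Measure (E n × (E n →L[ℝ] E n))} {σ : Measure (E n)}

/-- `k ∫ (1 - |x|²) = 2 ∫ ⟨x, P x⟩` -/
theorem third_identity (h : IsFBStationary n k V σ) :
    (k : ℝ) * ∫ z, (1 - ‖z.1‖ ^ 2) ∂V = 2 * ∫ z, ⟪z.1, z.2 z.1⟫ ∂V := by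
  have hF := h.finV
  have hσ := h.finσ
  have i1 : Integrable (fun z : E n × (E n →L[ℝ] E n) => (1 - ‖z.1‖ ^ 2)) V :=
    integrable_of_continuous (by fun_prop) h
  have i2 : Integrable (fun z : E n × (E n →L[ℝ] E n) => ⟪z.1, z.2 z.1⟫) V :=
    integrable_of_continuous (by fun_prop) h
  have hs : ContDiff ℝ ∞ (fun y : E n => (‖y‖ ^ 2 - 1) • y) :=
    ((contDiff_id.norm_sq ℝ).sub contDiff_const).smul contDiff_id
  have h1 := h.first_variation _ hs
  have h2 : ∫ z, planeTrace z.2 (fderiv ℝ (fun y : E n => (‖y‖ ^ 2 - 1) • y) z.1) ∂V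
      = ∫ z, (2 * ⟪z.1, z.2 z.1⟫ - (k : ℝ) * (1 - ‖z.1‖ ^ 2)) ∂V := by
    apply integral_congr_ae
    filter_upwards [h.plane] with z hz
    have h3 := ((hasFDerivAt_nsq z.1).sub_const 1).fun_smul (hasFDerivAt_id z.1)
    have h4 : HasFDerivAt (fun y : E n => (‖y‖ ^ 2 - 1) • y) _ z.1 := h3
    rw [h4.fderiv, planeTrace_add, planeTrace_smul, planeTrace_id hz, planeTrace_smulRight]
    simp only [id, innerSL_apply_apply, smul_apply, smul_eq_mul]
    ring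
  have h3 : ∫ x, ⟪(‖x‖ ^ 2 - 1) • x, x⟫ ∂σ = 0 := by
    rw [← integral_zero (E n) ℝ (μ := σ)]
    apply integral_congr_ae
    filter_upwards [h.sphere] with x hx
    rw [real_inner_smul_left, hx]
    ring
  rw [h2, h3, integral_sub (i2.const_mul _) (i1.const_mul _), integral_const_mul,
    integral_const_mul] at h1
  linarith

theorem second_derivative (hk : 2 ≤ k) (h : IsFBStationary n k V σ) {e : E n} (he : ‖e‖ = 1) :
    deriv (deriv (fun t : ℝ => confVol k V (t • e))) 0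
      = 4 * (∫ z, ‖z.1 - z.2 z.1‖ ^ 2 ∂V
        - ((k : ℝ) + 1) * ∫ z, ‖z.1‖ ^ 2 * ‖e - z.2 e‖ ^ 2 ∂V) := by
  have hF := h.finV
  have i1 : Integrable (fun z : E n × (E n →L[ℝ] E n) => ‖z.1‖ ^ 2 * ⟪e, z.2 e⟫) V :=
    integrable_of_continuous (by fun_prop) h
  have i2 : Integrable (fun z : E n × (E n →L[ℝ] E n) => ⟪e, z.1⟫ ^ 2) V :=
    integrable_of_continuous (by fun_prop) h
  have i3 : Integrable (fun z : E n × (E n →L[ℝ] E n) => ‖z.1‖ ^ 2) V :=
    integrable_of_continuous (by fun_prop) h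
  have i4 : Integrable (fun z : E n × (E n →L[ℝ] E n) => ⟪z.1, z.2 z.1⟫) V :=
    integrable_of_continuous (by fun_prop) h
  have e1 := second_identity h e
  have e2 := third_identity h
  rw [integral_sub (integrable_const 1) i3] at e2
  have e3 : ∫ z, ‖z.1 - z.2 z.1‖ ^ 2 ∂V = ∫ z, ‖z.1‖ ^ 2 ∂V - ∫ z, ⟪z.1, z.2 z.1⟫ ∂V := by
    rw [← integral_sub i3 i4]
    apply integral_congr_ae
    filter_upwards [h.plane] with z hz
    exact hz.norm_sub_sq z.1
  have e4 : ∫ z, ‖z.1‖ ^ 2 * ‖e - z.2 e‖ ^ 2 ∂V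
      = ∫ z, ‖z.1‖ ^ 2 ∂V - ∫ z, ‖z.1‖ ^ 2 * ⟪e, z.2 e⟫ ∂V := by
    rw [← integral_sub i3 i1]
    apply integral_congr_ae
    filter_upwards [h.plane] with z hz
    rw [hz.norm_sub_sq e, he]
    ring
  have e5 : ∫ z, (2 * ((k : ℝ) + 1) * ⟪e, z.1⟫ ^ 2 - 1 - ‖z.1‖ ^ 2) ∂V
      = 2 * ((k : ℝ) + 1) * ∫ z, ⟪e, z.1⟫ ^ 2 ∂V - V.real Set.univ - ∫ z, ‖z.1‖ ^ 2 ∂V := by
    have j1 := (i2.const_mul (2 * ((k : ℝ) + 1)))
    have j2 : Integrable (fun z : E n × (E n →L[ℝ] E n) =>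
        2 * ((k : ℝ) + 1) * ⟪e, z.1⟫ ^ 2 - 1) V := j1.sub (integrable_const 1)
    rw [integral_sub j2 i3, integral_sub j1 (integrable_const 1), integral_const_mul]
    simp
  rw [deriv2_confVol hk h he, e5, e3, e4]
  simp only [integral_const, smul_eq_mul, mul_one] at e2
  linear_combination (4 * ((k : ℝ) + 1)) * e1 - 2 * e2

end FBV
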