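import Pool.Agent.Lib_helper78.FB.PointwiseD

/-!
# Integrated inequalities
-/

open MeasureTheory InnerProductSpace Filter Topology
open scoped RealInnerProductSpace ContDiff

noncomputable section

namespace FBV

variable {n k : ℕ} {V : Measure (E n × (E n →L[ℝ] E n))} {σ : Measure (E n)}

theorem inner_sub_self {p x : E n} (hx : ‖x‖ = 1) :
    ⟪x - p, x⟫ = (‖x - p‖ ^ 2 - (‖p‖ ^ 2 - 1)) / 2 := by
  have e1 : ‖p‖ ^ 2 = ‖x - (x - p)‖ ^ 2 := by congr 2; abel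
  rw [norm_sub_sq_real, real_inner_comm] at e1
  rw [hx] at e1
  linarith

/-- the flux of the fields through the unit sphere -/
theorem flux_fld {p x : E n} (hx : ‖x‖ = 1) (i : ℕ) (a0 a1 b1 b2 b3 : ℝ) :
    ⟪fld p i a0 a1 b1 b2 b3 x, x⟫ =
      a0 + a1 * ‖x - p‖⁻¹ ^ i + b1 * ‖x - p‖⁻¹ ^ i * ((‖x - p‖ ^ 2 - (‖p‖ ^ 2 - 1)) / 2) := by
  unfold fld
  rw [inner_add_left, real_inner_smul_left, real_inner_smul_left, inner_sub_self hx,
    real_inner_self_eq_norm_sq, hx]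
  ring

theorem firstVar_fld (h : IsFBStationary n k V σ) {p : E n} (hp : 1 < ‖p‖) (i : ℕ)
    (a0 a1 b1 b2 b3 : ℝ) :
    Integrable (fun z : E n × (E n →L[ℝ] E n) =>
      planeTrace z.2 (fderiv ℝ (fld p i a0 a1 b1 b2 b3) z.1)) V ∧
    ∫ z, planeTrace z.2 (fderiv ℝ (fld p i a0 a1 b1 b2 b3) z.1) ∂V =
      ∫ x, ⟪fld p i a0 a1 b1 b2 b3 x, x⟫ ∂σ := by
  refine firstVar h hp ?_
  intro y hy
  refine contDiffAt_fld i a0 a1 b1 b2 b3 ?_
  rintro rfl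
  exact lt_irrefl _ hy

/-- total boundary mass -/
theorem boundary_mass (h : IsFBStationary n k V σ) :
    σ.real Set.univ = k * V.real Set.univ := by
  have hF := h.finV
  have hσ := h.finσ
  have h1 := h.first_variation (fun x => x) contDiff_id
  have h2 : ∫ z, planeTrace z.2 (fderiv ℝ (fun x : E n => x) z.1) ∂V = ∫ z, (k : ℝ) ∂V := by
    apply integral_congr_ae
    filter_upwards [h.plane] with z hz
    rw [fderiv_fun_id, planeTrace_id hz]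
  have h3 : ∫ x, ⟪x, x⟫ ∂σ = ∫ x, (1 : ℝ) ∂σ := by
    apply integral_congr_ae
    filter_upwards [h.sphere] with x hx
    rw [real_inner_self_eq_norm_sq, hx, one_pow]
  rw [h2, h3] at h1
  simp only [integral_const, smul_eq_mul, mul_one] at h1
  linarith

theorem integrable_pow (h : IsFBStationary n k V σ) {p : E n} (hp : 1 < ‖p‖) (i : ℕ) :
    Integrable (fun z : E n × (E n →L[ℝ] E n) => ‖z.1 - p‖⁻¹ ^ i) V := by
  have hF := h.finV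
  refine Integrable.of_bound ?_ (((‖p‖ - 1)⁻¹) ^ i) ?_
  · apply Measurable.aestronglyMeasurable
    exact ((measurable_fst.sub_const p).norm.inv).pow_const i
  · filter_upwards [h.ball] with z hz
    have h2 : ‖p‖ - ‖z.1‖ ≤ ‖p - z.1‖ := norm_sub_norm_le _ _
    rw [norm_sub_rev] at h2
    rw [norm_pow, norm_inv, norm_norm]
    apply pow_le_pow_left₀ (by positivity)
    apply inv_anti₀ <;> linarith

/-- `∫ λ ≤ |V|` -/
theorem int_A (hk : 2 ≤ k) (h : IsFBStationary n k V σ) {p : E n} (hp : 1 < ‖p‖) :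
    ∫ z, (‖p‖ ^ 2 - 1) / ‖z.1 - p‖ ^ 2 ∂V ≤ V.real Set.univ := by
  have hF := h.finV
  obtain ⟨h1, h2⟩ := firstVar_fld h hp 2 (-1) (‖p‖ ^ 2 - 1) 2 (-(‖p‖ ^ 2 - 1)) 0
  have hL : Integrable (fun z : E n × (E n →L[ℝ] E n) => (‖p‖ ^ 2 - 1) / ‖z.1 - p‖ ^ 2) V := by
    refine ((integrable_pow h hp 2).const_mul (‖p‖ ^ 2 - 1)).congr ?_
    filter_upwards with z
    rw [inv_pow, div_eq_mul_inv]
  have h3 : ∫ x, ⟪fld p 2 (-1) (‖p‖ ^ 2 - 1) 2 (-(‖p‖ ^ 2 - 1)) 0 x, x⟫ ∂σ = 0 := by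
    rw [← integral_zero (E n) ℝ (μ := σ)]
    apply integral_congr_ae
    filter_upwards [h.sphere] with x hx
    rw [flux_fld hx]
    have hne : x ≠ p := by
      rintro rfl
      linarith
    have : ‖x - p‖ ≠ 0 := norm_ne_zero_iff.2 (sub_ne_zero.2 hne)
    field_simp
    ring
  rw [h3] at h2
  have h4 : ∫ z, (k : ℝ) * ((‖p‖ ^ 2 - 1) / ‖z.1 - p‖ ^ 2 - 1) ∂V ≤ 0 := by
    rw [← h2]
    apply integral_mono_ae ((hL.sub (integrable_const 1)).const_mul (k : ℝ)) h1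
    filter_upwards [h.ball, h.plane] with z hz1 hz2
    exact bound_A hk hp hz1 hz2
  rw [integral_const_mul, integral_sub hL (integrable_const 1)] at h4
  simp only [integral_const, smul_eq_mul, mul_one] at h4
  have hk' : (0 : ℝ) < k := by exact_mod_cast (by omega : 0 < k)
  nlinarith

/-- surfaces -/
theorem int_D (h : IsFBStationary n 2 V σ) {p : E n} (hp : 1 < ‖p‖) :
    ∫ z, ((‖p‖ ^ 2 - 1) / ‖z.1 - p‖ ^ 2) ^ 2 ∂V
      ≤ (1 + (‖p‖ / (‖p‖ ^ 2 - ‖p‖ + 1)) ^ 2) * V.real Set.univ := by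
  have hF := h.finV
  obtain ⟨h1, h2⟩ := firstVar_fld h hp 2 (-1) (‖p‖ ^ 2 - 1) 2
        ((1 - 2 * ((‖p‖ ^ 2 - 1) / (2 * (‖p‖ ^ 2 - ‖p‖ + 1)))) * (‖p‖ ^ 2 - 1))
        (-2 * (1 - (‖p‖ ^ 2 + 1) / (2 * (‖p‖ ^ 2 - ‖p‖ + 1))))
  have hL : Integrable (fun z : E n × (E n →L[ℝ] E n) =>
      ((‖p‖ ^ 2 - 1) / ‖z.1 - p‖ ^ 2) ^ 2) V := by
    refine ((integrable_pow h hp 4).const_mul ((‖p‖ ^ 2 - 1) ^ 2)).congr ?_
    filter_upwards with z
    rw [inv_pow, div_pow, ← pow_mul, div_eq_mul_inv]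
  have h3 : ∫ x, ⟪fld p 2 (-1) (‖p‖ ^ 2 - 1) 2
        ((1 - 2 * ((‖p‖ ^ 2 - 1) / (2 * (‖p‖ ^ 2 - ‖p‖ + 1)))) * (‖p‖ ^ 2 - 1))
        (-2 * (1 - (‖p‖ ^ 2 + 1) / (2 * (‖p‖ ^ 2 - ‖p‖ + 1)))) x, x⟫ ∂σ = 0 := by
    rw [← integral_zero (E n) ℝ (μ := σ)]
    apply integral_congr_ae
    filter_upwards [h.sphere] with x hx
    rw [flux_fld hx]
    have hne : x ≠ p := by
      rintro rfl
      linarith
    have : ‖x - p‖ ≠ 0 := norm_ne_zero_iff.2 (sub_ne_zero.2 hne)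
    field_simp
    ring
  rw [h3] at h2
  set c := (‖p‖ / (‖p‖ ^ 2 - ‖p‖ + 1)) ^ 2
  have h4 : ∫ z, (((‖p‖ ^ 2 - 1) / ‖z.1 - p‖ ^ 2) ^ 2 - (1 + c)) ∂V ≤ 0 := by
    rw [← h2]
    apply integral_mono_ae (hL.sub (integrable_const (1 + c))) h1
    filter_upwards [h.ball, h.plane] with z hz1 hz2
    have := bound_D hp hz1 hz2
    simp only [Pi.sub_apply]
    linarith
  rw [integral_sub hL (integrable_const (1 + c))] at h4
  simp only [integral_const, smul_eq_mul, mul_one] at h4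
  linarith

/-- the bound of `∫ |x - p|^{-k-2}` by a boundary integral -/
theorem int_B (hk : 2 ≤ k) (h : IsFBStationary n k V σ) {p : E n} (hp : 1 < ‖p‖) :
    (k / 2 : ℝ) * (‖p‖ ^ 2 - 1) ^ 2 * ∫ z, ‖z.1 - p‖⁻¹ ^ (k + 2) ∂V
      ≤ ∫ x, ‖x - p‖⁻¹ ^ (k - 2) ∂σ := by
  have hF := h.finV
  obtain ⟨h1, h2⟩ := firstVar_fld h hp k 0 (‖p‖ ^ 2 - 1) 2 ((k / 2 : ℝ) * (‖p‖ ^ 2 - 1)) 0
  have h3 : ∫ x, ⟪fld p k 0 (‖p‖ ^ 2 - 1) 2 ((k / 2 : ℝ) * (‖p‖ ^ 2 - 1)) 0 x, x⟫ ∂σ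
      = ∫ x, ‖x - p‖⁻¹ ^ (k - 2) ∂σ := by
    apply integral_congr_ae
    filter_upwards [h.sphere] with x hx
    rw [flux_fld hx]
    have hne : x ≠ p := by
      rintro rfl
      linarith
    have hne' : ‖x - p‖ ≠ 0 := norm_ne_zero_iff.2 (sub_ne_zero.2 hne)
    obtain ⟨j, rfl⟩ := Nat.exists_eq_add_of_le' hk
    rw [show j + 2 - 2 = j from rfl, pow_add]
    field_simp
    ring
  rw [← h3, ← h2, ← integral_const_mul]
  apply integral_mono_ae ((integrable_pow h hp (k + 2)).const_mul _) h1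
  filter_upwards [h.ball, h.plane] with z hz1 hz2
  exact bound_B hk hp hz1 hz2

end FBV
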