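import Pool.Agent.Lib_helper78.FB.Fields

/-!
# Pointwise lower bounds for the divergences along `k`-planes
-/

open MeasureTheory InnerProductSpace Filter Topology
open scoped RealInnerProductSpace ContDiff

noncomputable section

namespace FBV

variable {n k : ℕ}

/-- the elementary facts about the quantities that occur -/
theorem facts {p x : E n} (hp : 1 < ‖p‖) (hx : ‖x‖ ≤ 1) {P : E n →L[ℝ] E n}
    (hP : IsPlane k P) {w s q a b : ℝ} (hw : w = ‖x - p‖ ^ 2) (hs : s = ‖x‖ ^ 2)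
    (hq : q = ‖p‖ ^ 2 - 1) (ha : a = ⟪x - p, P (x - p)⟫) (hb : b = ⟪x, P (x - p)⟫) :
    0 < w ∧ 0 ≤ s ∧ s ≤ 1 ∧ 0 < q ∧ 0 ≤ a ∧ a ≤ w ∧ (1 - s) * q ≤ w ∧
      ((w + s - 1 - q) / 2 - b + (1 - s) / w * (w - a)) ^ 2
        ≤ (1 - (1 - s) * q / w) * (w - a) := by
  have hne : x ≠ p := by
    rintro rfl
    linarith
  have hpos : 0 < ‖x - p‖ := norm_pos_iff.2 (sub_ne_zero.2 hne)
  have h1 : 0 < w := by rw [hw]; positivity
  have h2 : 0 ≤ s := by rw [hs]; positivity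
  have h3 : s ≤ 1 := by rw [hs]; exact pow_le_one₀ (norm_nonneg _) hx
  have h4 : 0 < q := by rw [hq]; nlinarith
  have h5 : 0 ≤ a := by rw [ha]; exact hP.inner_nonneg _
  have h6 : a ≤ w := by rw [ha, hw]; exact hP.inner_le _
  have hxx : ⟪x, x⟫ = s := by rw [hs, real_inner_self_eq_norm_sq]
  have hZZ : ⟪x - p, x - p⟫ = w := by rw [hw, real_inner_self_eq_norm_sq]
  have hxZ : ⟪x, x - p⟫ = (w + s - 1 - q) / 2 := by
    have e1 : ‖p‖ ^ 2 = ‖x - (x - p)‖ ^ 2 := by congr 2; abel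
    rw [norm_sub_sq_real] at e1
    rw [hw, hs, hq]
    linarith
  -- the vector `V`
  set v : E n := x + ((1 - s) / w) • (x - p) with hv
  have hvv : ‖v‖ ^ 2 = 1 - (1 - s) * q / w := by
    rw [hv, norm_add_sq_real, inner_smul_right, norm_smul, mul_pow, ← hs, ← hw, hxZ,
      Real.norm_eq_abs, sq_abs]
    field_simp
    ring
  have h7 : (1 - s) * q ≤ w := by
    have : 0 ≤ 1 - (1 - s) * q / w := by rw [← hvv]; positivity
    have h : (1 - s) * q / w ≤ 1 := by linarith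
    rwa [div_le_one h1] at h
  have hm : ⟪v, (x - p) - P (x - p)⟫
      = (w + s - 1 - q) / 2 - b + (1 - s) / w * (w - a) := by
    rw [hv, inner_add_left, real_inner_smul_left, hP.inner_sub, hP.inner_sub, hxZ, hZZ, ← ha,
      ← hb]
  have hN : ‖(x - p) - P (x - p)‖ ^ 2 = w - a := by
    rw [hP.norm_sub_sq, ← hw, ← ha]
  refine ⟨h1, h2, h3, h4, h5, h6, h7, ?_⟩
  rw [← hm, ← hvv, ← hN, ← mul_pow]
  apply sq_le_sq'
  · have := neg_abs_le ⟪v, (x - p) - P (x - p)⟫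
    have h8 := abs_real_inner_le_norm v ((x - p) - P (x - p))
    linarith
  · exact real_inner_le_norm _ _

/-- The field for the bound of `∫ λ`. -/
theorem bound_A {p x : E n} (hk : 2 ≤ k) (hp : 1 < ‖p‖) (hx : ‖x‖ ≤ 1) {P : E n →L[ℝ] E n}
    (hP : IsPlane k P) :
    k * ((‖p‖ ^ 2 - 1) / ‖x - p‖ ^ 2 - 1) ≤
      planeTrace P (fderiv ℝ (fld p 2 (-1) (‖p‖ ^ 2 - 1) 2 (-(‖p‖ ^ 2 - 1)) 0) x) := by
  obtain ⟨h1, h2, h3, h4, h5, h6, h7, -⟩ := facts hp hx hP rfl rfl rfl rfl rfl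
  have hne : x ≠ p := by
    rintro rfl
    linarith
  rw [planeTrace_fld hne _ _ _ _ _ _ hP]
  set w := ‖x - p‖ ^ 2 with hw
  set s := ‖x‖ ^ 2
  set q := ‖p‖ ^ 2 - 1
  set a := ⟪x - p, P (x - p)⟫
  set b := ⟪x, P (x - p)⟫
  have hU2 : ‖x - p‖⁻¹ ^ 2 = w⁻¹ := by rw [hw, inv_pow]
  have hU4 : ‖x - p‖⁻¹ ^ (2 + 2) = w⁻¹ ^ 2 := by rw [pow_add, hU2]; ring
  have hU6 : ‖x - p‖⁻¹ ^ (2 + 4) = w⁻¹ ^ 3 := by
    rw [show (2 + 4 : ℕ) = 2 + 2 + 2 from rfl, pow_add, hU4, hU2]; ring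
  rw [hU2, hU4, hU6]
  have hk' : (2 : ℝ) ≤ k := by exact_mod_cast hk
  have key : 0 ≤ (2 * k - 4 * (a / w)) - ((1 - s) * q / w) * (k - 4 * (a / w)) := by
    have ht : (1 - s) * q / w ≤ 1 := (div_le_one h1).2 h7
    have ht0 : 0 ≤ (1 - s) * q / w := by
      apply div_nonneg _ h1.le
      exact mul_nonneg (by linarith) h4.le
    have hα : a / w ≤ 1 := (div_le_one h1).2 h6
    have hα0 : 0 ≤ a / w := div_nonneg h5 h1.le
    nlinarith [mul_nonneg (sub_nonneg.2 ht) (sub_nonneg.2 hα),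
      mul_nonneg (sub_nonneg.2 hk') (sub_nonneg.2 ht)]
  have key2 : 0 ≤ (1 / w) * ((2 * k - 4 * (a / w)) - ((1 - s) * q / w) * (k - 4 * (a / w))) :=
    mul_nonneg (by positivity) key
  have : k * (-1 + q * w⁻¹) - q * ((2 : ℕ) : ℝ) * w⁻¹ ^ 2 * b +
      k * (2 * w⁻¹ + -q * ((1 - s) * w⁻¹ ^ 2) + 0 * ((1 - s) * w⁻¹)) -
      2 * ((2 : ℕ) : ℝ) * w⁻¹ ^ 2 * a +
      -q * (-2 * w⁻¹ ^ 2 * b - (((2 : ℕ) : ℝ) + 2) * (1 - s) * w⁻¹ ^ 3 * a) +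
      0 * (-2 * w⁻¹ * b - ((2 : ℕ) : ℝ) * (1 - s) * w⁻¹ ^ 2 * a)
      = k * (q / w - 1)
        + (1 / w) * ((2 * k - 4 * (a / w)) - ((1 - s) * q / w) * (k - 4 * (a / w))) := by
    field_simp
    push_cast
    ring
  rw [this]
  linarith

/-- The field for the uniform bound. -/
theorem bound_B {p x : E n} (hk : 2 ≤ k) (hp : 1 < ‖p‖) (hx : ‖x‖ ≤ 1) {P : E n →L[ℝ] E n}
    (hP : IsPlane k P) :
    (k / 2 : ℝ) * (‖p‖ ^ 2 - 1) ^ 2 * ‖x - p‖⁻¹ ^ (k + 2) ≤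
      planeTrace P (fderiv ℝ (fld p k 0 (‖p‖ ^ 2 - 1) 2 ((k / 2 : ℝ) * (‖p‖ ^ 2 - 1)) 0) x) := by
  obtain ⟨h1, h2, h3, h4, h5, h6, h7, h8⟩ := facts hp hx hP rfl rfl rfl rfl rfl
  have hne : x ≠ p := by
    rintro rfl
    linarith
  rw [planeTrace_fld hne _ _ _ _ _ _ hP]
  set w := ‖x - p‖ ^ 2 with hw
  set s := ‖x‖ ^ 2
  set q := ‖p‖ ^ 2 - 1
  set a := ⟪x - p, P (x - p)⟫
  set b := ⟪x, P (x - p)⟫
  have hU2 : ‖x - p‖⁻¹ ^ 2 = w⁻¹ := by rw [hw, inv_pow]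
  have hpos : 0 ≤ ‖x - p‖⁻¹ ^ k := by positivity
  have hU4 : ‖x - p‖⁻¹ ^ (k + 2) = ‖x - p‖⁻¹ ^ k * w⁻¹ := by rw [pow_add, hU2]
  have hU6 : ‖x - p‖⁻¹ ^ (k + 4) = ‖x - p‖⁻¹ ^ k * w⁻¹ ^ 2 := by
    rw [show k + 4 = k + 2 + 2 from rfl, pow_add, hU4, hU2]; ring
  rw [hU4, hU6]
  set u := ‖x - p‖⁻¹ ^ k
  have hk' : (2 : ℝ) ≤ k := by exact_mod_cast hk
  set m := (w + s - 1 - q) / 2 - b + (1 - s) / w * (w - a) with hm
  have hb : b = (w + s - 1 - q) / 2 + (1 - s) / w * (w - a) - m := by rw [hm]; ring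
  have hm2 : m ^ 2 ≤ w - a := by
    refine h8.trans ?_
    have : 0 ≤ (1 - s) * q / w := div_nonneg (mul_nonneg (by linarith) h4.le) h1.le
    nlinarith
  have e1 : 0 ≤ (q + 2 * m) ^ 2 / (2 * w) + 2 * ((w - a) - m ^ 2) / w
      + q * ((1 - s) / w) * (k / 2 - 1) * ((w - a) / w) := by
    have t1 : 0 ≤ (q + 2 * m) ^ 2 / (2 * w) := by positivity
    have t2 : 0 ≤ 2 * ((w - a) - m ^ 2) / w := div_nonneg (by linarith) h1.le
    have t3 : 0 ≤ q * ((1 - s) / w) * (k / 2 - 1) * ((w - a) / w) := by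
      have : 0 ≤ (1 - s) / w := div_nonneg (by linarith) h1.le
      have : 0 ≤ (w - a) / w := div_nonneg (by linarith) h1.le
      have : (0 : ℝ) ≤ k / 2 - 1 := by linarith
      positivity
    linarith
  have : k * (0 + q * u) - q * k * (u * w⁻¹) * b +
      k * (2 * u + (k / 2 : ℝ) * q * ((1 - s) * (u * w⁻¹)) + 0 * ((1 - s) * u)) -
      2 * k * (u * w⁻¹) * a +
      (k / 2 : ℝ) * q * (-2 * (u * w⁻¹) * b - ((k : ℝ) + 2) * (1 - s) * (u * w⁻¹ ^ 2) * a) +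
      0 * (-2 * u * b - (k : ℝ) * (1 - s) * (u * w⁻¹) * a)
      = (k / 2 : ℝ) * q ^ 2 * (u * w⁻¹) + k * u * ((q + 2 * m) ^ 2 / (2 * w)
        + 2 * ((w - a) - m ^ 2) / w + q * ((1 - s) / w) * (k / 2 - 1) * ((w - a) / w)) := by
    rw [hb]
    field_simp
    ring
  rw [this]
  have : 0 ≤ (k : ℝ) * u * ((q + 2 * m) ^ 2 / (2 * w)
        + 2 * ((w - a) - m ^ 2) / w + q * ((1 - s) / w) * (k / 2 - 1) * ((w - a) / w)) :=
    mul_nonneg (mul_nonneg (by linarith) hpos) e1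
  linarith

end FBV
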