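import Pool.Agent.Lib_helper78.FB.Pointwise

/-!
# Pointwise lower bound for surfaces
-/

open MeasureTheory InnerProductSpace Filter Topology
open scoped RealInnerProductSpace ContDiff

noncomputable section

namespace FBV

variable {n : ℕ}

theorem dist_bounds {p x : E n} (hp : 1 < ‖p‖) (hx : ‖x‖ ≤ 1) :
    (‖p‖ - 1) ^ 2 ≤ ‖x - p‖ ^ 2 ∧ ‖x - p‖ ^ 2 ≤ (‖p‖ + 1) ^ 2 := by
  have h1 : ‖x - p‖ ≤ ‖x‖ + ‖p‖ := norm_sub_le _ _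
  have h2 : ‖p‖ - ‖x‖ ≤ ‖p - x‖ := norm_sub_norm_le _ _
  rw [norm_sub_rev] at h2
  constructor
  · apply pow_le_pow_left₀ <;> linarith
  · apply pow_le_pow_left₀ (norm_nonneg _); linarith

/-- The field for surfaces. -/
theorem bound_D {p x : E n} (hp : 1 < ‖p‖) (hx : ‖x‖ ≤ 1) {P : E n →L[ℝ] E n}
    (hP : IsPlane 2 P) :
    ((‖p‖ ^ 2 - 1) / ‖x - p‖ ^ 2) ^ 2 - 1 - (‖p‖ / (‖p‖ ^ 2 - ‖p‖ + 1)) ^ 2 ≤
      planeTrace P (fderiv ℝ (fld p 2 (-1) (‖p‖ ^ 2 - 1) 2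
        ((1 - 2 * ((‖p‖ ^ 2 - 1) / (2 * (‖p‖ ^ 2 - ‖p‖ + 1)))) * (‖p‖ ^ 2 - 1))
        (-2 * (1 - (‖p‖ ^ 2 + 1) / (2 * (‖p‖ ^ 2 - ‖p‖ + 1))))) x) := by
  obtain ⟨h1, h2, h3, h4, h5, h6, h7, h8⟩ := facts hp hx hP rfl rfl rfl rfl rfl
  have hne : x ≠ p := by
    rintro rfl
    linarith
  obtain ⟨d1, d2⟩ := dist_bounds hp hx
  rw [planeTrace_fld hne _ _ _ _ _ _ hP]
  set w := ‖x - p‖ ^ 2 with hw
  set s := ‖x‖ ^ 2
  set ρ := ‖p‖ with hρ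
  set a := ⟪x - p, P (x - p)⟫
  set b := ⟪x, P (x - p)⟫
  have hU2 : ‖x - p‖⁻¹ ^ 2 = w⁻¹ := by rw [hw, inv_pow]
  have hU4 : ‖x - p‖⁻¹ ^ (2 + 2) = w⁻¹ ^ 2 := by rw [pow_add, hU2]; ring
  have hU6 : ‖x - p‖⁻¹ ^ (2 + 4) = w⁻¹ ^ 3 := by
    rw [show (2 + 4 : ℕ) = 2 + 2 + 2 from rfl, pow_add, hU4, hU2]; ring
  rw [hU2, hU4, hU6]
  have hD : 0 < ρ ^ 2 - ρ + 1 := by nlinarith
  have hD' : ρ ^ 2 - ρ + 1 ≠ 0 := hD.ne'
  set β := (ρ ^ 2 - 1) / (2 * (ρ ^ 2 - ρ + 1)) with hβ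
  set δ := (ρ ^ 2 + 1) / (2 * (ρ ^ 2 - ρ + 1)) with hδ
  set q := ρ ^ 2 - 1 with hq
  have hβ1 : β ≤ 1 := by
    rw [hβ, div_le_one (by positivity)]
    nlinarith [sq_nonneg (ρ - 1)]
  set m := (w + s - 1 - q) / 2 - b + (1 - s) / w * (w - a) with hm
  have hb : b = (w + s - 1 - q) / 2 + (1 - s) / w * (w - a) - m := by rw [hm]; ring
  set A := (1 - β) * (q / w) - (1 - δ) with hA
  have hη : 0 ≤ (1 - s) * q / w := div_nonneg (mul_nonneg (by linarith) h4.le) h1.le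
  -- the two nonnegative terms
  have e1 : 0 ≤ A ^ 2 + 4 * A * m / w + 4 * (w - a) / w ^ 2 * (1 - β * ((1 - s) * q / w)) := by
    have t1 : m ^ 2 ≤ (1 - β * ((1 - s) * q / w)) * (w - a) := by
      refine h8.trans ?_
      apply mul_le_mul_of_nonneg_right _ (by linarith)
      nlinarith
    have t2 : A ^ 2 + 4 * A * m / w + 4 * (w - a) / w ^ 2 * (1 - β * ((1 - s) * q / w))
        = (A + 2 * m / w) ^ 2
          + 4 / w ^ 2 * ((1 - β * ((1 - s) * q / w)) * (w - a) - m ^ 2) := by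
      field_simp
      ring
    rw [t2]
    have : 0 ≤ 4 / w ^ 2 * ((1 - β * ((1 - s) * q / w)) * (w - a) - m ^ 2) :=
      mul_nonneg (by positivity) (by linarith)
    positivity
  have e2 : 0 ≤ 2 * ((1 - s) / w) * (β * (q / w) - 1 + δ) := by
    have t0 : 0 ≤ (1 - s) / w := div_nonneg (by linarith) h1.le
    have t1 : 0 ≤ β * (q / w) - 1 + δ := by
      have : β * (q / w) - 1 + δ = (q * (q / w) - (ρ - 1) ^ 2) / (2 * (ρ ^ 2 - ρ + 1)) := by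
        rw [hβ, hδ]
        generalize q / w = y
        obtain ⟨d, hd⟩ : ∃ d, d = ρ ^ 2 - ρ + 1 := ⟨_, rfl⟩
        rw [← hd] at hD' ⊢
        field_simp
        rw [hd]
        ring
      rw [this]
      apply div_nonneg _ (by positivity)
      rw [sub_nonneg, mul_div, le_div_iff₀ h1]
      calc (ρ - 1) ^ 2 * w ≤ (ρ - 1) ^ 2 * (ρ + 1) ^ 2 := by gcongr
        _ = q * q := by rw [hq]; ring
    positivity
  have e3 : (β * (q / w) - δ) ^ 2 ≤ (ρ / (ρ ^ 2 - ρ + 1)) ^ 2 := by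
    have : β * (q / w) - δ = (q * (q / w) - (ρ ^ 2 + 1)) / (2 * (ρ ^ 2 - ρ + 1)) := by
      rw [hβ, hδ]
      generalize q / w = y
      field_simp
    rw [this, div_pow, div_pow, div_le_div_iff₀ (by positivity) (by positivity)]
    have u1 : q * (q / w) ≤ (ρ + 1) ^ 2 := by
      rw [mul_div, div_le_iff₀ h1]
      calc q * q = (ρ + 1) ^ 2 * (ρ - 1) ^ 2 := by rw [hq]; ring
        _ ≤ (ρ + 1) ^ 2 * w := by gcongr
    have u2 : (ρ - 1) ^ 2 ≤ q * (q / w) := by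
      rw [mul_div, le_div_iff₀ h1]
      calc (ρ - 1) ^ 2 * w ≤ (ρ - 1) ^ 2 * (ρ + 1) ^ 2 := by gcongr
        _ = q * q := by rw [hq]; ring
    have u3 : (q * (q / w) - (ρ ^ 2 + 1)) ^ 2 ≤ (2 * ρ) ^ 2 := by
      apply sq_le_sq'
      · nlinarith
      · nlinarith
    calc (q * (q / w) - (ρ ^ 2 + 1)) ^ 2 * (ρ ^ 2 - ρ + 1) ^ 2
        ≤ (2 * ρ) ^ 2 * (ρ ^ 2 - ρ + 1) ^ 2 := by gcongr
      _ = ρ ^ 2 * (2 * (ρ ^ 2 - ρ + 1)) ^ 2 := by ring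
  have key : ((2 : ℕ) : ℝ) * (-1 + q * w⁻¹) - q * ((2 : ℕ) : ℝ) * w⁻¹ ^ 2 * b +
      ((2 : ℕ) : ℝ) * (2 * w⁻¹ + (1 - 2 * β) * q * ((1 - s) * w⁻¹ ^ 2)
        + -2 * (1 - δ) * ((1 - s) * w⁻¹)) -
      2 * ((2 : ℕ) : ℝ) * w⁻¹ ^ 2 * a +
      (1 - 2 * β) * q * (-2 * w⁻¹ ^ 2 * b - (((2 : ℕ) : ℝ) + 2) * (1 - s) * w⁻¹ ^ 3 * a) +
      -2 * (1 - δ) * (-2 * w⁻¹ * b - ((2 : ℕ) : ℝ) * (1 - s) * w⁻¹ ^ 2 * a)
      = (q / w) ^ 2 - 1 - (β * (q / w) - δ) ^ 2 + 2 * ((1 - s) / w) * (β * (q / w) - 1 + δ)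
        + (A ^ 2 + 4 * A * m / w + 4 * (w - a) / w ^ 2 * (1 - β * ((1 - s) * q / w))) := by
    rw [hA, hb]
    generalize β = β'
    generalize δ = δ'
    field_simp
    push_cast
    ring
  rw [key]
  linarith

end FBV
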