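import Pool.Agent.Lib_helper78.FB.Chord

/-!
# Second order behaviour at the identity
-/

open MeasureTheory InnerProductSpace Filter Topology
open scoped RealInnerProductSpace ContDiff

noncomputable section

namespace FBV

variable {n k : ℕ} {V : Measure (E n × (E n →L[ℝ] E n))} {σ : Measure (E n)}

theorem hasFDerivAt_inner (e x : E n) :
    HasFDerivAt (fun y : E n => ⟪e, y⟫) (innerSL ℝ e) x :=
  (innerSL ℝ e).hasFDerivAt

theorem hasFDerivAt_nsq (x : E n) :
    HasFDerivAt (fun y : E n => ‖y‖ ^ 2) ((2 : ℝ) • innerSL ℝ x) x := by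
  have h := (hasFDerivAt_id x).norm_sq
  refine h.congr_fderiv ?_
  ext v
  simp

/-- `∫ ⟨x, P e⟩ = 0` and `∫ ⟨e, x⟩ = 0` -/
theorem first_order (hk : 2 ≤ k) (h : IsFBStationary n k V σ) (e : E n) :
    ∫ z, ⟪e, z.1⟫ ∂V = 0 := by
  have hF := h.finV
  have hσ := h.finσ
  -- the three fields
  have s1 : ∫ x, ⟪e, x⟫ ∂σ = 0 := by
    have h1 := h.first_variation (fun _ => e) contDiff_const
    rw [← h1]
    rw [← integral_zero (E n × (E n →L[ℝ] E n)) ℝ (μ := V)]
    apply integral_congr_ae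
    filter_upwards with z
    have : fderiv ℝ (fun _ : E n => e) z.1 = 0 := by simp
    rw [this]
    simp [planeTrace]
  have i1 : Integrable (fun z : E n × (E n →L[ℝ] E n) => ⟪z.1, z.2 e⟫) V :=
    integrable_of_continuous (by fun_prop) h
  have i2 : Integrable (fun z : E n × (E n →L[ℝ] E n) => ⟪e, z.1⟫) V :=
    integrable_of_continuous (by fun_prop) h
  have s2 : ∫ z, ⟪z.1, z.2 e⟫ ∂V = 0 := by
    have hs : ContDiff ℝ ∞ (fun y : E n => (‖y‖ ^ 2) • e) :=
      (contDiff_id.norm_sq ℝ).smul contDiff_const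
    have h1 := h.first_variation _ hs
    have h2 : ∫ z, planeTrace z.2 (fderiv ℝ (fun y : E n => (‖y‖ ^ 2) • e) z.1) ∂V
        = ∫ z, 2 * ⟪z.1, z.2 e⟫ ∂V := by
      apply integral_congr_ae
      filter_upwards with z
      rw [((hasFDerivAt_nsq z.1).smul_const e).fderiv, planeTrace_smulRight]
      simp
    have h3 : ∫ x, ⟪(‖x‖ ^ 2) • e, x⟫ ∂σ = ∫ x, ⟪e, x⟫ ∂σ := by
      apply integral_congr_ae
      filter_upwards [h.sphere] with x hx
      rw [hx]
      simp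
    rw [h2, h3, s1, integral_const_mul] at h1
    linarith
  have s3 : ∫ z, ((k : ℝ) * ⟪e, z.1⟫ + ⟪z.1, z.2 e⟫) ∂V = 0 := by
    have hs : ContDiff ℝ ∞ (fun y : E n => ⟪e, y⟫ • y) :=
      ((innerSL ℝ e).contDiff).smul contDiff_id
    have h1 := h.first_variation _ hs
    have h2 : ∫ z, planeTrace z.2 (fderiv ℝ (fun y : E n => ⟪e, y⟫ • y) z.1) ∂V
        = ∫ z, ((k : ℝ) * ⟪e, z.1⟫ + ⟪z.1, z.2 e⟫) ∂V := by
      apply integral_congr_ae
      filter_upwards [h.plane] with z hz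
      have h3 := ((hasFDerivAt_inner e z.1).fun_smul (hasFDerivAt_id z.1))
      have h4 : HasFDerivAt (fun y : E n => ⟪e, y⟫ • y) _ z.1 := h3
      rw [h4.fderiv, planeTrace_add, planeTrace_smul, planeTrace_id hz, planeTrace_smulRight]
      simp only [id, innerSL_apply_apply]
      rw [← hz.symm z.1 e, real_inner_comm e]
      ring
    have h3 : ∫ x, ⟪⟪e, x⟫ • x, x⟫ ∂σ = ∫ x, ⟪e, x⟫ ∂σ := by
      apply integral_congr_ae
      filter_upwards [h.sphere] with x hx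
      rw [real_inner_smul_left, real_inner_self_eq_norm_sq, hx]
      ring
    rw [h2, h3, s1] at h1
    exact h1
  rw [integral_add (i2.const_mul _) i1, s2, add_zero, integral_const_mul] at s3
  have hk' : (k : ℝ) ≠ 0 := by
    have : 0 < k := by omega
    positivity
  exact (mul_eq_zero.1 s3).resolve_left hk'

/-- `k ∫ ⟨e, x⟩² = ∫ |x|² |P e|²` -/
theorem second_identity (h : IsFBStationary n k V σ) (e : E n) :
    (k : ℝ) * ∫ z, ⟪e, z.1⟫ ^ 2 ∂V = ∫ z, ‖z.1‖ ^ 2 * ⟪e, z.2 e⟫ ∂V := by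
  have hF := h.finV
  have hσ := h.finσ
  have i1 : Integrable (fun z : E n × (E n →L[ℝ] E n) => ‖z.1‖ ^ 2 * ⟪e, z.2 e⟫) V :=
    integrable_of_continuous (by fun_prop) h
  have i2 : Integrable (fun z : E n × (E n →L[ℝ] E n) => ⟪e, z.1⟫ ^ 2) V :=
    integrable_of_continuous (by fun_prop) h
  have hs : ContDiff ℝ ∞ (fun y : E n => (‖y‖ ^ 2 * ⟪e, y⟫) • e - (⟪e, y⟫ ^ 2) • y) :=
    (((contDiff_id.norm_sq ℝ).mul (innerSL ℝ e).contDiff).smul contDiff_const).sub
      (((innerSL ℝ e).contDiff.pow 2).smul contDiff_id)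
  have h1 := h.first_variation _ hs
  have h2 : ∫ z, planeTrace z.2 (fderiv ℝ
      (fun y : E n => (‖y‖ ^ 2 * ⟪e, y⟫) • e - (⟪e, y⟫ ^ 2) • y) z.1) ∂V
      = ∫ z, (‖z.1‖ ^ 2 * ⟪e, z.2 e⟫ - (k : ℝ) * ⟪e, z.1⟫ ^ 2) ∂V := by
    apply integral_congr_ae
    filter_upwards [h.plane] with z hz
    have h3 := (((hasFDerivAt_nsq z.1).fun_mul (hasFDerivAt_inner e z.1)).smul_const e).fun_sub
      (((hasDerivAt_pow 2 (⟪e, z.1⟫)).comp_hasFDerivAt z.1 (hasFDerivAt_inner e z.1)).fun_smul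
        (hasFDerivAt_id z.1))
    have h4 : HasFDerivAt (fun y : E n => (‖y‖ ^ 2 * ⟪e, y⟫) • e - (⟪e, y⟫ ^ 2) • y) _ z.1 := h3
    rw [h4.fderiv]
    rw [planeTrace_sub, planeTrace_add, planeTrace_smul, planeTrace_id hz, planeTrace_smulRight,
      planeTrace_smulRight]
    simp only [id, innerSL_apply_apply, add_apply, smul_apply, smul_eq_mul,
      Function.comp_apply]
    have : ⟪e, z.2 z.1⟫ = ⟪z.1, z.2 e⟫ := by rw [← hz.symm, real_inner_comm]
    rw [this]
    push_cast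
    ring
  have h3 : ∫ x, ⟪(‖x‖ ^ 2 * ⟪e, x⟫) • e - (⟪e, x⟫ ^ 2) • x, x⟫ ∂σ = 0 := by
    rw [← integral_zero (E n) ℝ (μ := σ)]
    apply integral_congr_ae
    filter_upwards [h.sphere] with x hx
    rw [inner_sub_left, real_inner_smul_left, real_inner_smul_left, real_inner_self_eq_norm_sq,
      hx]
    ring
  rw [h2, h3, integral_sub i1 (i2.const_mul _), integral_const_mul] at h1
  linarith

/-- sum over an orthonormal family -/
theorem IsPlane.sum_le {P : E n →L[ℝ] E n} (hP : IsPlane k P) {m : ℕ} {e : Fin m → E n}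
    (he : Orthonormal ℝ e) : ∑ i, ⟪e i, P (e i)⟫ ≤ k := by
  obtain ⟨S, hS, rfl⟩ := hP
  let b := stdOrthonormalBasis ℝ S
  have h1 : ∀ v : E n, ⟪v, S.starProjection v⟫ = ∑ j, ⟪((b j : S) : E n), v⟫ ^ 2 := by
    intro v
    have hv := (b.sum_sq_norm_inner_right (S.orthogonalProjectionOnto v))
    have h2 : ⟪v, S.starProjection v⟫ = ‖S.orthogonalProjectionOnto v‖ ^ 2 := by
      have h3 : ⟪v, S.starProjection v⟫ = ‖S.starProjection v‖ ^ 2 := by
        have hP : IsPlane (Module.finrank ℝ S) S.starProjection := ⟨S, rfl, rfl⟩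
        exact hP.inner_self v
      rw [h3]
      rfl
    rw [h2, ← hv]
    apply Finset.sum_congr rfl
    intro j _
    rw [Real.norm_eq_abs, sq_abs]
    congr 1
    have : ⟪b j, S.orthogonalProjectionOnto v⟫ = ⟪((b j : S) : E n), S.starProjection v⟫ := rfl
    rw [this, ← Submodule.inner_starProjection_left_eq_right,
      Submodule.starProjection_eq_self_iff.2 (b j).2]
  simp_rw [h1]
  rw [Finset.sum_comm]
  calc ∑ j, ∑ i, ⟪((b j : S) : E n), e i⟫ ^ 2
      ≤ ∑ j, ‖((b j : S) : E n)‖ ^ 2 := by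
        apply Finset.sum_le_sum
        intro j _
        have := he.sum_inner_products_le (x := ((b j : S) : E n)) (s := Finset.univ)
        refine le_trans (le_of_eq ?_) this
        apply Finset.sum_congr rfl
        intro i _
        rw [Real.norm_eq_abs, sq_abs, real_inner_comm]
    _ = ∑ j : Fin (Module.finrank ℝ S), (1 : ℝ) := by
        apply Finset.sum_congr rfl
        intro j _
        have : ‖((b j : S) : E n)‖ = 1 := b.orthonormal.1 j
        rw [this, one_pow]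
    _ = k := by
        simp [hS]

theorem second_order (hk : 2 ≤ k) (h : IsFBStationary n k V σ) {e : Fin (k + 1) → E n}
    (he : Orthonormal ℝ e) :
    ∑ i, ∫ z, (2 * ((k : ℝ) + 1) * ⟪e i, z.1⟫ ^ 2 - 1 - ‖z.1‖ ^ 2) ∂V
      ≤ -((k : ℝ) + 1) * ∫ z, (1 - ‖z.1‖ ^ 2) ∂V := by
  have hF := h.finV
  have i2 : ∀ e : E n, Integrable (fun z : E n × (E n →L[ℝ] E n) => ⟪e, z.1⟫ ^ 2) V :=
    fun e => integrable_of_continuous (by fun_prop) h
  have i3 : Integrable (fun z : E n × (E n →L[ℝ] E n) => ‖z.1‖ ^ 2) V :=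
    integrable_of_continuous (by fun_prop) h
  have i4 : ∀ e : E n, Integrable (fun z : E n × (E n →L[ℝ] E n) => ‖z.1‖ ^ 2 * ⟪e, z.2 e⟫) V :=
    fun e => integrable_of_continuous (by fun_prop) h
  have hk0 : (0 : ℝ) < k := by
    have : 0 < k := by omega
    positivity
  have h1 : ∀ i, ∫ z, (2 * ((k : ℝ) + 1) * ⟪e i, z.1⟫ ^ 2 - 1 - ‖z.1‖ ^ 2) ∂V
      = 2 * ((k : ℝ) + 1) * ∫ z, ⟪e i, z.1⟫ ^ 2 ∂V - V.real Set.univ - ∫ z, ‖z.1‖ ^ 2 ∂V := by
    intro i
    have j1 := ((i2 (e i)).const_mul (2 * ((k : ℝ) + 1)))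
    have j2 : Integrable (fun z : E n × (E n →L[ℝ] E n) =>
        2 * ((k : ℝ) + 1) * ⟪e i, z.1⟫ ^ 2 - 1) V := j1.sub (integrable_const 1)
    rw [integral_sub j2 i3, integral_sub j1 (integrable_const 1), integral_const_mul]
    simp
  have h2 : (k : ℝ) * ∑ i, ∫ z, ⟪e i, z.1⟫ ^ 2 ∂V ≤ k * ∫ z, ‖z.1‖ ^ 2 ∂V := by
    rw [Finset.mul_sum]
    simp_rw [second_identity h]
    rw [← integral_finset_sum _ (fun i _ => i4 (e i)), ← integral_const_mul]
    apply integral_mono_ae (integrable_finset_sum _ (fun i _ => i4 (e i))) (i3.const_mul _)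
    filter_upwards [h.plane] with z hz
    rw [← Finset.mul_sum, mul_comm (k : ℝ)]
    exact mul_le_mul_of_nonneg_left (hz.sum_le he) (by positivity)
  have h3 : ∑ i, ∫ z, ⟪e i, z.1⟫ ^ 2 ∂V ≤ ∫ z, ‖z.1‖ ^ 2 ∂V := le_of_mul_le_mul_left h2 hk0
  simp_rw [h1]
  rw [Finset.sum_sub_distrib, Finset.sum_sub_distrib, ← Finset.mul_sum,
    integral_sub (integrable_const 1) i3]
  simp only [Finset.sum_const, Finset.card_univ, Fintype.card_fin, nsmul_eq_mul, integral_const,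
    smul_eq_mul, mul_one]
  push_cast
  nlinarith

end FBV
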