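import Pool.Agent.Lib_helper78.FB.Deriv

/-!
# Short forms of the definitions used in the final statements
-/

open MeasureTheory InnerProductSpace Filter Topology
open scoped RealInnerProductSpace ContDiff

noncomputable section

namespace FBV

/-- Linear endomorphisms of `ℝⁿ`. -/
abbrev Op (n : ℕ) := E n →L[ℝ] E n

/-- Measures on the set of pairs `(x, P)`, `x` a point of `ℝⁿ` and `P` an endomorphism (below:
the orthogonal projection onto a plane). -/
abbrev Varifold (n : ℕ) := Measure (E n × Op n)

/-- The trace of `P ∘ A`, computed in the standard basis. When `P` is the orthogonal projection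
onto the plane `S` and `A = DX(x)`, this is the divergence `div_S X (x)`. -/
def divAlong {n : ℕ} (P A : Op n) : ℝ :=
  ∑ i, P (A (EuclideanSpace.single i 1)) i

/-- The first variation `∫ div_P X (x) dV (x, P)` of `V` in the direction of the vector
field `X`. -/
def firstVariation {n : ℕ} (V : Varifold n) (X : E n → E n) : ℝ :=
  ∫ z, divAlong z.2 (fderiv ℝ X z.1) ∂V

/-- `V` is concentrated on pairs `(x, P)` with `|x| ≤ 1` and `P` the orthogonal projection onto
a `k`-dimensional subspace. -/
def InBall {n : ℕ} (k : ℕ) (V : Varifold n) : Prop :=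
  ∀ᵐ z ∂V, ‖z.1‖ ≤ 1 ∧ IsPlane k z.2

/-- `V` is a `k`-varifold in the closed unit ball of `ℝⁿ` (a finite measure on pairs
`(x, P)`, `x` in the ball, `P` the orthogonal projection onto a `k`-plane) which is stationary with
free boundary, with boundary measure `σ` (a finite measure on the unit sphere): the first
variation formula `∫ div_S X dV = ∫ ⟨X, x⟩ dσ` holds for all smooth vector fields `X`. -/
def StationaryFB {n : ℕ} (k : ℕ) (V : Varifold n) (σ : Measure (E n)) : Prop :=
  IsFiniteMeasure V ∧ IsFiniteMeasure σ ∧ InBall k V ∧ (∀ᵐ x ∂σ, ‖x‖ = 1) ∧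
    ∀ X : E n → E n, ContDiff ℝ ∞ X → firstVariation V X = ∫ x, ⟪X x, x⟫ ∂σ

/-- The mass of `V`. -/
def mass {n : ℕ} (V : Varifold n) : ℝ := V.real Set.univ

/-- The volume of the image of the `k`-varifold `V` under the conformal diffeomorphism with
parameter `c`: the integral of the `k`-th power of the conformal factor. -/
def imageVolume {n : ℕ} (k : ℕ) (V : Varifold n) (c : E n) : ℝ :=
  ∫ z, confFactor c z.1 ^ k ∂V

theorem divAlong_eq {n : ℕ} (P A : Op n) : divAlong P A = planeTrace P A := by
  unfold divAlong planeTrace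
  rw [LinearMap.trace_eq_matrix_trace ℝ (EuclideanSpace.basisFun (Fin n) ℝ).toBasis]
  unfold Matrix.trace
  apply Finset.sum_congr rfl
  intro i _
  simp [Matrix.diag, LinearMap.toMatrix_apply]

theorem StationaryFB.old {n k : ℕ} {V : Varifold n} {σ : Measure (E n)}
    (h : StationaryFB k V σ) : IsFBStationary n k V σ := by
  obtain ⟨h1, h2, h3, h4, h5⟩ := h
  refine ⟨h1, h2, ?_, ?_, h4, ?_⟩
  · filter_upwards [h3] with z hz using hz.1
  · filter_upwards [h3] with z hz using hz.2
  · intro X hX
    rw [← h5 X hX]
    unfold firstVariation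
    simp_rw [divAlong_eq]

theorem imageVolume_eq {n k : ℕ} (V : Varifold n) : imageVolume k V = confVol k V := rfl

end FBV
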